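import Pool.Agent.N126.RC.Pre
import Pool.Agent.TH145.GH.DataE
import Pool.Agent.TH145.GD.Vec
import Pool.Agent.W602.GT.SpDefs

/-!
Auxiliary facts: numerical conditions, the Nullstellensatz, points of the cone.
-/

set_option autoImplicit false

open MvPolynomial Pool.Agent.W602.GT Pool.Agent.TH145.GH
open Pool.Agent.TH145.GD (St deg_St)

namespace Pool.Agent.N126.RC

/-- The forms `F a`, of degrees `d a`, are generic over `k`: for each `a`, one coefficient is not
`0`, and the ratios of the other coefficients to it are, for all `a` together, algebraically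
independent over `k`. -/
def Generic (k : Type) {K : Type} [Field k] [Field K] [Algebra k K] {n : ℕ} {A : Type} (d : A → ℕ)
    (F : A → MvPolynomial (Fin (n + 1)) K) : Prop :=
  (∀ a, (F a).IsHomogeneous (d a)) ∧ ∃ I0 : A → Fin (n + 1) →₀ ℕ,
    (∀ a, (F a).coeff (I0 a) ≠ 0) ∧
    AlgebraicIndependent k fun p : (a : A) × {I : Fin (n + 1) →₀ ℕ // I.degree = d a ∧ I ≠ I0 a} =>
      (F p.1).coeff p.2.1 / (F p.1).coeff (I0 p.1)

section numbers

variable {A : Type} [Fintype A] [DecidableEq A] {m : ℕ} {d q : A → ℕ} {C : Finset A}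

theorem exists_N (C : Finset A) (q : A → ℕ) :
    ∃ N, 0 < N ∧ ∀ a, a ∉ C → q a ≠ 0 → q a ∣ N := by
  obtain ⟨N, hN⟩ : ∃ N, N = ∏ a ∈ Cᶜ, if q a = 0 then 1 else q a := ⟨_, rfl⟩
  refine ⟨N, ?_, fun a ha hqa => ?_⟩
  · rw [hN]
    refine Finset.prod_pos fun a ha => ?_
    split_ifs with h
    · exact one_pos
    · exact Nat.pos_of_ne_zero h
  · have h1 := Finset.dvd_prod_of_mem (fun a => if q a = 0 then 1 else q a)
      (Finset.mem_compl.2 ha)
    rw [← hN, if_neg hqa] at h1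
    exact h1

theorem num_cond (hd : (2 * m + 1 : ℚ) < ∑ a ∈ C, ((d a : ℚ) + 1) +
      ∑ a ∈ Cᶜ, (d a : ℚ) * (1 - 1 / q a)) {N : ℕ} (hN : 0 < N)
    (hqN : ∀ a, a ∉ C → q a ≠ 0 → q a ∣ N) {C' : Finset A} (hC : C ⊆ C') :
    N * (2 * m + 1) + ∑ a ∈ C'ᶜ, N / q a * d a < N * (∑ a, d a + C'.card) := by
  have h0 : (0 : ℚ) < N := by exact_mod_cast hN
  have h1 : ∀ a ∈ C'ᶜ, (((N / q a * d a : ℕ)) : ℚ) = N * (d a * (1 / q a)) := by
    intro a ha
    have ha' : a ∉ C := fun h => Finset.mem_compl.1 ha (hC h)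
    by_cases hqa : q a = 0
    · rw [hqa]; simp
    · rw [Nat.cast_mul, Nat.cast_div_charZero (hqN a ha' hqa)]
      ring
  have h2 : ((∑ a ∈ C'ᶜ, N / q a * d a : ℕ) : ℚ) = N * ∑ a ∈ C'ᶜ, (d a : ℚ) * (1 / q a) := by
    rw [Nat.cast_sum, Finset.mul_sum]
    exact Finset.sum_congr rfl h1
  have h3 : ∑ a ∈ C'ᶜ, (d a : ℚ) * (1 / q a) ≤ ∑ a ∈ Cᶜ, (d a : ℚ) * (1 / q a) :=
    Finset.sum_le_sum_of_subset_of_nonneg (Finset.compl_subset_compl.2 hC)
      fun _ _ _ => by positivity
  have h4 : ∑ a ∈ Cᶜ, (d a : ℚ) * (1 - 1 / q a) = ∑ a ∈ Cᶜ, (d a : ℚ) -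
      ∑ a ∈ Cᶜ, (d a : ℚ) * (1 / q a) := by
    rw [← Finset.sum_sub_distrib]
    exact Finset.sum_congr rfl fun a _ => by ring
  have h5 : ∑ a ∈ C, ((d a : ℚ) + 1) = ∑ a ∈ C, (d a : ℚ) + C.card := by
    rw [Finset.sum_add_distrib]
    simp
  have h6 : ∑ a ∈ C, (d a : ℚ) + ∑ a ∈ Cᶜ, (d a : ℚ) = ∑ a, (d a : ℚ) :=
    Finset.sum_add_sum_compl C _
  have h7 : (C.card : ℚ) ≤ C'.card := by exact_mod_cast Finset.card_le_card hC
  have h8 : (2 * m + 1 : ℚ) + ∑ a ∈ C'ᶜ, (d a : ℚ) * (1 / q a) < ∑ a, (d a : ℚ) + C'.card := by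
    rw [h4, h5] at hd
    linarith
  have h9 := mul_lt_mul_of_pos_left h8 h0
  rw [mul_add, ← h2] at h9
  exact_mod_cast h9

end numbers

/-- The Nullstellensatz, for points over extension fields. -/
theorem ns_point {K σ ι : Type} [Field K] [IsAlgClosed K] [Finite σ] (G : ι → MvPolynomial σ K)
    (g : MvPolynomial σ K) (h : ∀ z, (∀ i, eval z (G i) = 0) → eval z g = 0) {L : Type} [Field L]
    [Algebra K L] (z : σ → L) (hz : ∀ i, aeval z (G i) = 0) : aeval z g = 0 := by
  set I : Ideal (MvPolynomial σ K) := Ideal.span (Set.range G) with hI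
  have hG : ∀ i, G i ∈ I := fun i => Ideal.subset_span ⟨i, rfl⟩
  have h4 : g ∈ vanishingIdeal K (zeroLocus K I) := by
    rw [mem_vanishingIdeal_iff]
    intro z hz
    rw [mem_zeroLocus_iff] at hz
    have h5 := h z (fun i => by simpa [aeval_eq_eval] using hz (G i) (hG i))
    simpa [aeval_eq_eval] using h5
  rw [vanishingIdeal_zeroLocus_eq_radical] at h4
  obtain ⟨N, hN⟩ := h4
  have h5 : I ≤ RingHom.ker (aeval z : MvPolynomial σ K →ₐ[K] L) := by
    rw [hI, Ideal.span_le]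
    rintro _ ⟨i, rfl⟩
    exact hz i
  have h6 := h5 hN
  rw [RingHom.mem_ker, map_pow] at h6
  exact eq_zero_of_pow_eq_zero h6

variable {n : ℕ} {W ι : Type}

/-- The values at a point of the cone of the elements of the ideal. -/
theorem eval_span {K L : Type} [Field K] [Field L] [Algebra K L]
    {G : ι → MvPolynomial (Fin (n + 1) ⊕ W) K} {z : Fin (n + 1) ⊕ W → L}
    (hz : ∀ i, aeval z (G i) = 0) {g : MvPolynomial (Fin (n + 1) ⊕ W) K}
    (hg : g ∈ Ideal.span (Set.range G)) : aeval z g = 0 := by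
  have h5 : Ideal.span (Set.range G) ≤
      RingHom.ker (aeval z : MvPolynomial (Fin (n + 1) ⊕ W) K →ₐ[K] L) := by
    rw [Ideal.span_le]
    rintro _ ⟨i, rfl⟩
    exact hz i
  exact h5 hg

/-- The equation of a coordinate `u w` over the coordinates `x`. -/
theorem mon_point {K L : Type} [Field K] [Field L] [Algebra K L]
    {G : ι → MvPolynomial (Fin (n + 1) ⊕ W) K} (p : Polynomial (MvPolynomial (Fin (n + 1)) K))
    {w : W} (hp : p.eval₂ (rename Sum.inl).toRingHom (X (Sum.inr w)) ∈ Ideal.span (Set.range G))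
    {z : Fin (n + 1) ⊕ W → L} (hz : ∀ i, aeval z (G i) = 0) :
    (p.map (aeval fun i => z (Sum.inl i) : MvPolynomial (Fin (n + 1)) K →ₐ[K] L).toRingHom).eval
      (z (Sum.inr w)) = 0 := by
  have h1 := eval_span hz hp
  have h2 := Polynomial.hom_eval₂ p (rename Sum.inl : MvPolynomial (Fin (n + 1)) K →ₐ[K]
    MvPolynomial (Fin (n + 1) ⊕ W) K).toRingHom (aeval z : MvPolynomial (Fin (n + 1) ⊕ W) K →ₐ[K]
      L).toRingHom (X (Sum.inr w))
  rw [Polynomial.eval_map]
  have h3 : (aeval z : MvPolynomial (Fin (n + 1) ⊕ W) K →ₐ[K] L).toRingHom.comp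
      (rename Sum.inl : MvPolynomial (Fin (n + 1)) K →ₐ[K]
        MvPolynomial (Fin (n + 1) ⊕ W) K).toRingHom =
      (aeval fun i => z (Sum.inl i) : MvPolynomial (Fin (n + 1)) K →ₐ[K] L).toRingHom := by
    apply MvPolynomial.ringHom_ext
    · intro r
      simp
    · intro i
      simp
  have h4 : (aeval z : MvPolynomial (Fin (n + 1) ⊕ W) K →ₐ[K] L).toRingHom (X (Sum.inr w)) =
      z (Sum.inr w) := by simp
  rw [h3, h4] at h2
  rw [← h2]
  exact h1

/-- The coordinates `x` are not all `0`. -/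
theorem x_ne_zero {K : Type} [Field K] [IsAlgClosed K] {e : W → ℕ} (he : ∀ w, 0 < e w)
    {G : ι → MvPolynomial (Fin (n + 1) ⊕ W) K}
    (hGh : ∀ i, ∃ c, (G i).IsWeightedHomogeneous (wts e) c) (hfo : FiniteOver G)
    {z : Fin (n + 1) ⊕ W → K} (hz : z ≠ 0) (hG : ∀ i, eval z (G i) = 0) :
    ∃ c, z (Sum.inl c) ≠ 0 := by
  by_contra hcon
  push Not at hcon
  apply hz
  funext v
  rcases v with c | w
  · exact hcon c
  by_contra hw
  have hw : z (Sum.inr w) ≠ 0 := hw
  obtain ⟨p, hp, hpG⟩ := hfo w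
  have hinf : Infinite K := IsAlgClosed.instInfinite
  obtain ⟨P, hP⟩ : ∃ P : Polynomial K, P = p.map (aeval fun _ => (0 : K) :
    MvPolynomial (Fin (n + 1)) K →ₐ[K] K).toRingHom := ⟨_, rfl⟩
  have hP0 : P ≠ 0 := by
    rw [hP]
    exact (hp.map _).ne_zero
  have h1 : ∀ t : K, P.eval (t ^ e w * z (Sum.inr w)) = 0 := by
    intro t
    have h2 := mon_point (L := K) p hpG (z := fun v => t ^ wts e v * z v) (fun i => by
      obtain ⟨c, hc⟩ := hGh i
      rw [aeval_eq_eval]
      exact (eval_scale hc t z).trans (by rw [hG i, mul_zero]))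
    have h3 : (fun i : Fin (n + 1) => t ^ wts e (Sum.inl i : Fin (n + 1) ⊕ W) * z (Sum.inl i)) =
        fun _ => 0 := by
      funext i
      rw [hcon i, mul_zero]
    rw [h3, ← hP] at h2
    exact h2
  have h2 : ∀ r : K, P.eval r = 0 := by
    intro r
    obtain ⟨t, ht⟩ := IsAlgClosed.exists_pow_nat_eq (r / z (Sum.inr w)) (he w)
    have h3 := h1 t
    rw [ht, div_mul_cancel₀ _ hw] at h3
    exact h3
  exact hP0 (Polynomial.funext fun r => by rw [h2, Polynomial.eval_zero])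

/-- Finiteness of the fibres. -/
theorem fibre_finite {K : Type} [Field K] [Finite W] {G : ι → MvPolynomial (Fin (n + 1) ⊕ W) K}
    (hfo : FiniteOver G) (x : Fin (n + 1) → K) :
    {z : Fin (n + 1) ⊕ W → K | (∀ i, eval z (G i) = 0) ∧ ∀ j, z (Sum.inl j) = x j}.Finite := by
  classical
  choose p hp hpG using hfo
  have h1 : {u : W → K | ∀ w, u w ∈ ((p w).map (aeval x : MvPolynomial (Fin (n + 1)) K →ₐ[K]
      K).toRingHom).roots.toFinset}.Finite :=
    Set.Finite.pi' fun w => Finset.finite_toSet _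
  refine (h1.image fun u => Sum.elim x u).subset ?_
  rintro z ⟨hz, hzx⟩
  refine ⟨fun w => z (Sum.inr w), fun w => ?_, ?_⟩
  · rw [Multiset.mem_toFinset, Polynomial.mem_roots ((hp w).map _).ne_zero]
    have h2 := mon_point (L := K) (p w) (hpG w) (z := z) (fun i => by
      rw [aeval_eq_eval]; exact hz i)
    have h3 : (fun i => z (Sum.inl i)) = x := funext hzx
    rw [h3] at h2
    exact h2
  · funext v
    rcases v with j | w
    · exact (hzx j).symm
    · rfl

/-- The function field is algebraic over the field of the coordinates `x`. -/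
theorem alg_coords {K L : Type} [Field K] [Field L] [Algebra K L]
    {G : ι → MvPolynomial (Fin (n + 1) ⊕ W) K} (hfo : FiniteOver G) (z : Fin (n + 1) ⊕ W → L)
    (c : Fin (n + 1)) (hc : z (Sum.inl c) = 1) (hz : ∀ i, aeval z (G i) = 0)
    (halg : Algebra.IsAlgebraic (IntermediateField.adjoin K (Set.range z)) L) :
    Algebra.IsAlgebraic (coords K fun i => z (Sum.inl i)) L := by
  obtain ⟨E, hE⟩ : ∃ E, E = coords K fun i => z (Sum.inl i) := ⟨_, rfl⟩
  rw [← hE]
  have hx : ∀ i, z (Sum.inl i) ∈ E := by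
    intro i
    rw [hE]
    refine IntermediateField.subset_adjoin _ _ ⟨i, c, ?_, ?_⟩
    · change z (Sum.inl c) ≠ 0
      rw [hc]; exact one_ne_zero
    · change z (Sum.inl i) = z (Sum.inl i) / z (Sum.inl c)
      rw [hc, div_one]
  have hu : ∀ w, IsAlgebraic E (z (Sum.inr w)) := by
    intro w
    obtain ⟨p, hp, hpG⟩ := hfo w
    let ψ : MvPolynomial (Fin (n + 1)) K →ₐ[K] E := aeval fun i => ⟨z (Sum.inl i), hx i⟩
    have h1 : ((algebraMap E L).comp ψ.toRingHom) =
        (aeval fun i => z (Sum.inl i) : MvPolynomial (Fin (n + 1)) K →ₐ[K] L).toRingHom := by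
      apply MvPolynomial.ringHom_ext
      · intro r
        simp [ψ]
      · intro i
        simp [ψ]
    refine ⟨p.map ψ.toRingHom, (hp.map _).ne_zero, ?_⟩
    have h2 := mon_point p hpG hz
    rw [← h1, ← Polynomial.map_map, Polynomial.eval_map] at h2
    exact h2
  have h3 : IntermediateField.adjoin K (Set.range z) ≤
      (algebraicClosure E L).restrictScalars K := by
    rw [IntermediateField.adjoin_le_iff]
    rintro _ ⟨v, rfl⟩
    change z v ∈ algebraicClosure E L
    rw [mem_algebraicClosure_iff]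
    rcases v with i | w
    · exact isAlgebraic_algebraMap (⟨z (Sum.inl i), hx i⟩ : E)
    · exact hu w
  have h4 : Algebra.IsAlgebraic (algebraicClosure E L) L := by
    refine ⟨fun y => ?_⟩
    have h5 : IsAlgebraic (IntermediateField.adjoin K (Set.range z)).toSubfield y :=
      halg.isAlgebraic y
    exact Pool.Agent.TH145.MF.alg_mono (F2 := (algebraicClosure E L).toSubfield) h3 h5
  exact Algebra.IsAlgebraic.trans E (algebraicClosure E L) L

end Pool.Agent.N126.RC
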