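import Pool.Agent.N126.RC.CanDef

/-!
Canonical degrees of curves on closed subsets of weighted projective spaces: the inequality.
-/

set_option autoImplicit false

open MvPolynomial FF Pool.Agent.W603.LV Pool.Agent.W603.PV

namespace Pool.Agent.N126.RC

open Matrix Module

section lin

variable {L : Type} [Field L] {σ : Type} [Fintype σ] [DecidableEq σ]

/-- Minors of a kernel. -/
theorem minor_kernel {r N : ℕ} {R : Fin r → σ → L} (hR : LinearIndependent L R)
    {u : Fin N → σ → L} (hu : LinearIndependent L u)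
    (hk : ∀ v, v ∈ Submodule.span L (Set.range u) ↔ ∀ i, ∑ s, R i s * v s = 0) :
    ∃ (ε : Fin r ⊕ Fin N ≃ σ) (Δ : L), ∀ τ : Fin N → σ, minor u τ =
      (Matrix.of fun (p q : Fin r ⊕ Fin N) =>
        Sum.elim (fun i => R i (ε q)) (fun j => if ε q = τ j then (1 : L) else 0) p).det * Δ := by
  classical
  obtain ⟨M, hM⟩ : ∃ M : Matrix (Fin r) σ L, M = Matrix.of R := ⟨_, rfl⟩
  have hrank : M.rank = r := by
    have h2 : LinearIndependent L M.row := by rw [hM]; exact hR
    rw [h2.rank_matrix, Fintype.card_fin]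
  have hmv : ∀ v i, M.mulVecLin v i = ∑ s, R i s * v s := by
    intro v i
    rw [hM]
    rfl
  have hker : LinearMap.ker M.mulVecLin = Submodule.span L (Set.range u) := by
    ext v
    rw [LinearMap.mem_ker, hk]
    constructor
    · intro h i
      rw [← hmv, h]
      rfl
    · intro h
      funext i
      rw [hmv, h i]
      rfl
  have hrn : r + N = Fintype.card σ := by
    have h1 := LinearMap.finrank_range_add_finrank_ker M.mulVecLin
    rw [hker, finrank_span_eq_card hu, Fintype.card_fin, Module.finrank_fintype_fun_eq_card] at h1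
    have h2 : finrank L (LinearMap.range M.mulVecLin) = r := hrank
    rw [h2] at h1
    exact h1
  have hsurj : ∀ f : Fin r → L, ∃ v, M.mulVecLin v = f := by
    have h1 : LinearMap.range M.mulVecLin = ⊤ := by
      apply Submodule.eq_top_of_finrank_eq
      rw [Module.finrank_fintype_fun_eq_card, Fintype.card_fin]
      exact hrank
    intro f
    have : f ∈ LinearMap.range M.mulVecLin := by rw [h1]; trivial
    exact this
  choose b hb using fun i : Fin r => hsurj (Pi.single i 1)
  have hcard : Fintype.card (Fin r ⊕ Fin N) = Fintype.card σ := by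
    rw [Fintype.card_sum, Fintype.card_fin, Fintype.card_fin, hrn]
  obtain ⟨ε⟩ : Nonempty (Fin r ⊕ Fin N ≃ σ) := ⟨Fintype.equivOfCardEq hcard⟩
  obtain ⟨B, hB⟩ : ∃ B : Matrix (Fin r ⊕ Fin N) (Fin r ⊕ Fin N) L, B =
    Matrix.of fun p q => Sum.elim (fun i => b i (ε p)) (fun i => u i (ε p)) q := ⟨_, rfl⟩
  refine ⟨ε, B.det, fun τ => ?_⟩
  rw [← det_mul]
  have h1 : (Matrix.of fun (p q : Fin r ⊕ Fin N) =>
      Sum.elim (fun i => R i (ε q)) (fun j => if ε q = τ j then (1 : L) else 0) p) * B =
      Matrix.fromBlocks 1 0 (Matrix.of fun j i => b i (τ j)) (Matrix.of fun j i => u i (τ j)) := by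
    ext p q
    rw [Matrix.mul_apply]
    rcases p with i | j
    · have h2 : ∀ v : σ → L, ∑ x, R i (ε x) * v (ε x) = M.mulVecLin v i := by
        intro v
        rw [hmv]
        exact Equiv.sum_comp ε fun s => R i s * v s
      rcases q with i' | i'
      · rw [Matrix.fromBlocks_apply₁₁, hB]
        simp only [Matrix.of_apply, Sum.elim_inl]
        rw [h2, hb, Matrix.one_apply]
        simp [Pi.single_apply]
      · rw [Matrix.fromBlocks_apply₁₂, hB]
        simp only [Matrix.of_apply, Sum.elim_inl, Sum.elim_inr]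
        rw [h2]
        have h3 : u i' ∈ LinearMap.ker M.mulVecLin := by
          rw [hker]; exact Submodule.subset_span ⟨i', rfl⟩
        rw [LinearMap.mem_ker.1 h3]
        rfl
    · have h2 : ∀ v : σ → L, ∑ x, (if ε x = τ j then (1 : L) else 0) * v (ε x) = v (τ j) := by
        intro v
        rw [Finset.sum_eq_single (ε.symm (τ j))]
        · simp
        · intro x _ hx
          rw [if_neg, zero_mul]
          intro h
          exact hx (by rw [← h]; simp)
        · simp
      rcases q with i' | i'
      · rw [Matrix.fromBlocks_apply₂₁, hB]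
        simp only [Matrix.of_apply, Sum.elim_inl, Sum.elim_inr]
        rw [h2]
      · rw [Matrix.fromBlocks_apply₂₂, hB]
        simp only [Matrix.of_apply, Sum.elim_inr]
        rw [h2]
  rw [h1, Matrix.det_fromBlocks_zero₁₂, Matrix.det_one, one_mul]
  unfold minor
  rw [← Matrix.det_transpose]
  rfl

omit [DecidableEq σ] in
theorem exists_minor {N : ℕ} {u : Fin N → σ → L} (hu : LinearIndependent L u) :
    ∃ τ, minor u τ ≠ 0 := by
  classical
  obtain ⟨A, hA⟩ : ∃ A : Matrix (Fin N) σ L, A = Matrix.of u := ⟨_, rfl⟩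
  have h1 : A.rank = N := by
    have h2 : LinearIndependent L A.row := by rw [hA]; exact hu
    rw [h2.rank_matrix, Fintype.card_fin]
  have h2 : Submodule.span L (Set.range A.col) = ⊤ := by
    apply Submodule.eq_top_of_finrank_eq
    rw [Module.finrank_fintype_fun_eq_card, Fintype.card_fin]
    rw [Matrix.rank_eq_finrank_span_cols] at h1
    exact h1
  obtain ⟨κ, a, -, hspan, hli⟩ := exists_linearIndependent' L A.col
  have hfin : Finite κ := hli.finite
  have := Fintype.ofFinite κ
  have h3 : Fintype.card κ = N := by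
    have h4 := finrank_span_eq_card hli
    rw [hspan, h2, finrank_top, Module.finrank_fintype_fun_eq_card, Fintype.card_fin] at h4
    exact h4.symm
  have e : Fin N ≃ κ := (Fintype.equivFinOfCardEq h3).symm
  refine ⟨a ∘ e, ?_⟩
  have h5 : LinearIndependent L ((A.col ∘ a) ∘ e) := hli.comp e e.injective
  have h6 := (Matrix.linearIndependent_rows_iff_isUnit (A := Matrix.of fun j i => u i (a (e j)))).1
    (by
      have h7 : (Matrix.of fun j i => u i (a (e j)) : Matrix (Fin N) (Fin N) L).row =
        (A.col ∘ a) ∘ e := by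
        funext j
        rw [hA]
        rfl
      rw [h7]
      exact h5)
  have h7 := isUnit_iff_ne_zero.1 ((Matrix.isUnit_iff_isUnit_det _).1 h6)
  unfold minor
  rw [← Matrix.det_transpose]
  exact h7

/-- The number of the equations. -/
theorem card_rows {r N : ℕ} {R : Fin r → σ → L} (hR : LinearIndependent L R)
    {u : Fin N → σ → L} (hu : LinearIndependent L u)
    (hk : ∀ v, v ∈ Submodule.span L (Set.range u) ↔ ∀ i, ∑ s, R i s * v s = 0) :
    r + N = Fintype.card σ := by
  obtain ⟨ε, -⟩ := minor_kernel hR hu hk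
  have := Fintype.card_congr ε
  rw [Fintype.card_sum, Fintype.card_fin, Fintype.card_fin] at this
  exact this

end lin

section ord

variable {k L : Type} [Field k] [Field L] [Algebra k L]

theorem ge_det {A : Type} [Fintype A] [DecidableEq A] (P : Place k L) (M : Matrix A A L)
    (ρ γ : A → ℤ) (hM : ∀ a c, Ge P (ρ a + γ c) (M a c)) :
    Ge P (∑ a, ρ a + ∑ c, γ c) M.det := by
  rw [Matrix.det_apply']
  refine Ge.sum _ _ fun σ _ => ?_
  have h1 := (Ge.intCast (P := P) (Equiv.Perm.sign σ : ℤ)).mul
    (Ge.prod Finset.univ (fun i => M (σ i) i) (fun i => ρ (σ i) + γ i) (fun i _ => hM _ _))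
  refine h1.mono (le_of_eq ?_)
  rw [zero_add, Finset.sum_add_distrib, Equiv.sum_comp σ ρ]

/-- The orders of the derivatives of a weighted homogeneous polynomial with constant coefficients. -/
theorem ge_pderiv {σ : Type} [Fintype σ] (P : Place k L) {wt : σ → ℕ} {μ : ℤ} {z : σ → L}
    (hz : ∀ s, Ge P (wt s * μ) (z s)) {G : MvPolynomial σ k} {c : ℕ}
    (hG : G.IsWeightedHomogeneous wt c) (s : σ) :
    Ge P (c * μ + -(wt s * μ)) (aeval z (pderiv s G)) := by
  classical
  have h0 : aeval z (pderiv s G) = ∑ α ∈ G.support, aeval z (pderiv s (monomial α (G.coeff α))) := by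
    conv_lhs => rw [G.as_sum]
    rw [map_sum, map_sum]
  rw [h0]
  refine Ge.sum _ _ fun α hα => ?_
  rw [pderiv_monomial, aeval_monomial]
  by_cases hαs : α s = 0
  · rw [hαs, Nat.cast_zero, mul_zero, map_zero, zero_mul]
    exact Ge.zero
  have hwt : Finsupp.weight wt α = c := hG (mem_support_iff.1 hα)
  obtain ⟨β, hβ⟩ : ∃ β : σ →₀ ℕ, β = α - Finsupp.single s 1 := ⟨_, rfl⟩
  have h1 : Ge P (∑ t, (β t : ℤ) * (wt t * μ)) (∏ t, z t ^ β t) :=
    Ge.prod Finset.univ _ _ fun t _ => (hz t).pow _
  have h2 : β.prod (fun i k => z i ^ k) = ∏ t, z t ^ β t := by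
    rw [Finsupp.prod_fintype]
    intro i
    rw [pow_zero]
  have h3 : ∑ t, (β t : ℤ) * (wt t * μ) = c * μ + -(wt s * μ) := by
    have h4 : ∀ t, (β t : ℤ) = (α t : ℤ) - if t = s then 1 else 0 := by
      intro t
      rw [hβ, Finsupp.tsub_apply, Finsupp.single_apply]
      by_cases hts : t = s
      · subst hts
        rw [if_pos rfl, if_pos rfl]
        push_cast [Nat.one_le_iff_ne_zero.2 hαs]
        rfl
      · rw [if_neg (Ne.symm hts), if_neg hts]
        simp
    have h5 : ∑ t, (α t : ℤ) * wt t = c := by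
      rw [← hwt, Finsupp.weight_apply, Finsupp.sum_fintype _ _ (by simp)]
      push_cast
      simp
    have h6 : ∑ t, (β t : ℤ) * (wt t * μ) =
        (∑ t, (α t : ℤ) * wt t) * μ - ∑ t, (if t = s then (1 : ℤ) else 0) * (wt t * μ) := by
      rw [Finset.sum_mul, ← Finset.sum_sub_distrib]
      refine Finset.sum_congr rfl fun t _ => ?_
      rw [h4]
      ring
    rw [h6, h5]
    rw [Finset.sum_eq_single s]
    · simp
      ring
    · intro t _ hts
      rw [if_neg hts, zero_mul]
    · simp
  rw [← hβ, h2, ← h3]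
  have h4 := (Ge.const (P := P) (G.coeff α * (α s : k))).mul h1
  rw [zero_add] at h4
  exact h4

end ord

end Pool.Agent.N126.RC
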