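import Pool.Agent.N126.RC.CanA
import Pool.Agent.N126.RC.Base
import Pool.Agent.N617.RC.MULT

/-!
Canonical degrees of curves on closed subsets of weighted projective spaces: the inequality.
-/

set_option autoImplicit false

open MvPolynomial FF Pool.Agent.W603.LV Pool.Agent.W603.PV

namespace Pool.Agent.N126.RC

open Matrix Module

/-- The orders of the coordinates. -/
theorem ge_coords {K L : Type} [Field K] [Field L] [Algebra K L] {n : ℕ} {W ι : Type} {e : W → ℕ}
    {G : ι → MvPolynomial (Fin (n + 1) ⊕ W) K}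
    (hGh : ∀ i, ∃ c, (G i).IsWeightedHomogeneous (wts e) c) (hfo : FiniteOver G)
    (z : Fin (n + 1) ⊕ W → L) (hz : ∀ i, aeval z (G i) = 0)
    (hx : (fun j => z (Sum.inl j)) ≠ 0) (P : Place K L) (s : Fin (n + 1) ⊕ W) :
    Ge P (wts e s * pord P fun j => z (Sum.inl j)) (z s) := by
  classical
  obtain ⟨x, hxdef⟩ : ∃ x : Fin (n + 1) → L, x = fun j => z (Sum.inl j) := ⟨_, rfl⟩
  rw [← hxdef] at hx ⊢
  obtain ⟨j0, hj0, hj0'⟩ := exists_pord P (Function.ne_iff.1 hx)
  obtain ⟨t, ht⟩ : ∃ t, t = x j0 := ⟨_, rfl⟩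
  have ht0 : t ≠ 0 := by rw [ht]; exact hj0
  have hto : P.ord t = pord P x := by rw [ht]; exact hj0'
  obtain ⟨z', hz'⟩ : ∃ z' : Fin (n + 1) ⊕ W → L, ∀ s, z' s = t⁻¹ ^ wts e s * z s := ⟨_, fun _ => rfl⟩
  have hzz : ∀ s, z s = t ^ wts e s * z' s := by
    intro s
    rw [hz', ← mul_assoc, ← mul_pow, mul_inv_cancel₀ ht0, one_pow, one_mul]
  have hz0 : ∀ i, aeval z' (G i) = 0 := by
    intro i
    obtain ⟨c, hc⟩ := hGh i
    have h1 := Pool.Agent.N617.RC.eval_scale (algebraMap K L) (wts e) c (G i) hc t⁻¹ z' z hz'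
    have h2 : aeval z (G i) = eval₂ (algebraMap K L) z (G i) := rfl
    rw [← h2, hz i, mul_zero] at h1
    exact h1
  have hx' : ∀ j, Ge P 0 (z' (Sum.inl j)) := by
    intro j
    refine Ge.of_mul' (h := t) (m := pord P x) ht0 hto ?_
    have h1 : t * z' (Sum.inl j) = x j := by
      have := hzz (Sum.inl j)
      rw [hxdef]
      simp only [wts, Sum.elim_inl, pow_one] at this
      exact this.symm
    rw [h1, zero_add]
    exact ge_pord P x j
  have hint : ∀ f : MvPolynomial (Fin (n + 1)) K, Ge P 0 (aeval (fun j => z' (Sum.inl j)) f) := by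
    intro f
    have h1 := ge_mvpolyF P (fun j => z' (Sum.inl j)) (fun _ => 0) (fun a => by
      simpa using hx' a) f 0 (fun α _ => by simpa using Ge.const _)
    simpa using h1
  have hall : ∀ s, Ge P 0 (z' s) := by
    rintro (j | w)
    · exact hx' j
    · obtain ⟨p, hp, hpG⟩ := hfo w
      have h1 := mon_point p hpG hz0
      rw [Polynomial.eval_eq_sum_range, hp.natDegree_map, Finset.sum_range_succ,
        Polynomial.coeff_map, hp.coeff_natDegree, map_one, one_mul] at h1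
      refine Pool.Agent.N617.RC.int_of_monic P p.natDegree (fun i => aeval (fun j => z' (Sum.inl j))
        (p.coeff i)) (fun i _ => hint _) _ ?_
      rw [← h1, add_comm]
      congr 1
      refine Finset.sum_congr rfl fun i _ => ?_
      rw [Polynomial.coeff_map]
      rfl
  have h1 : Ge P (P.ord t) t := Or.inr le_rfl
  have h2 := (h1.pow (wts e s)).mul (hall s)
  rw [← hzz, add_zero, hto] at h2
  exact h2

/-- **The canonical degree.** -/
theorem canX_le {K L : Type} [Field K] [IsAlgClosed K] [CharZero K] [Field L] [Algebra K L]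
    [IsFF K L] {n : ℕ} {W ι : Type} [Fintype W] [Finite ι] {e : W → ℕ}
    {G : ι → MvPolynomial (Fin (n + 1) ⊕ W) K} {c : ι → ℕ}
    (hG : ∀ i, (G i).IsWeightedHomogeneous (wts e) (c i)) (hfo : FiniteOver G)
    (z : Fin (n + 1) ⊕ W → L) (hz : ∀ i, aeval z (G i) = 0)
    (hx : (fun j => z (Sum.inl j)) ≠ 0) {w : ℕ} (u : Fin (w + 1) → Fin (n + 1) ⊕ W → L)
    (hu : TangentBasis G z u) :
    ∃ (r : ℕ) (a : Fin r → ι), Function.Injective a ∧
      r + (w + 1) = Fintype.card (Fin (n + 1) ⊕ W) ∧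
      canX K e z u ≤ (∑ i, (c (a i) : ℤ) - ∑ s : Fin (n + 1) ⊕ W, (wts e s : ℤ)) *
        pht K (fun j => z (Sum.inl j)) := by
  classical
  obtain ⟨hui, huk⟩ := hu
  obtain ⟨R, hR⟩ : ∃ R : ι → Fin (n + 1) ⊕ W → L, ∀ i s, R i s = aeval z (pderiv s (G i)) :=
    ⟨_, fun _ _ => rfl⟩
  obtain ⟨κ', a, ha, hspan, hli⟩ := exists_linearIndependent' L R
  have hfin : Finite κ' := hli.finite
  have := Fintype.ofFinite κ'
  obtain ⟨r, hr⟩ : ∃ r, r = Fintype.card κ' := ⟨_, rfl⟩
  have ε0 : Fin r ≃ κ' := (Fintype.equivFinOfCardEq hr.symm).symm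
  have hrli : LinearIndependent L (fun i => R (a (ε0 i))) := hli.comp ε0 ε0.injective
  have hrk : ∀ v, v ∈ Submodule.span L (Set.range u) ↔ ∀ i, ∑ s, R (a (ε0 i)) s * v s = 0 := by
    intro v
    rw [huk]
    constructor
    · intro h i
      have := h (a (ε0 i))
      simp only [hR]
      exact this
    · intro h i
      have h1 : R i ∈ Submodule.span L (Set.range (R ∘ a)) := by
        rw [hspan]; exact Submodule.subset_span ⟨i, rfl⟩
      have h2 : ∀ y ∈ Submodule.span L (Set.range (R ∘ a)), ∑ j, y j * v j = 0 := by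
        intro y hy
        induction hy using Submodule.span_induction with
        | mem y hy =>
          obtain ⟨b, rfl⟩ := hy
          have := h (ε0.symm b)
          simpa using this
        | zero => simp
        | add y y' _ _ hy hy' =>
          simp only [Pi.add_apply, add_mul, Finset.sum_add_distrib]
          rw [hy, hy', add_zero]
        | smul b y _ hy =>
          simp only [Pi.smul_apply, smul_eq_mul, mul_assoc, ← Finset.mul_sum]
          rw [hy, mul_zero]
      have h3 := h2 _ h1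
      simp only [hR] at h3
      exact h3
  refine ⟨r, fun i => a (ε0 i), fun i j h => ε0.injective (ha h), card_rows hrli hui hrk, ?_⟩
  obtain ⟨ε, Δ, hΔ⟩ := minor_kernel hrli hui hrk
  obtain ⟨x, hxdef⟩ : ∃ x : Fin (n + 1) → L, x = fun j => z (Sum.inl j) := ⟨_, rfl⟩
  have hxe : ∃ j, x j ≠ 0 := by rw [hxdef]; exact Function.ne_iff.1 hx
  obtain ⟨τ0, hτ0⟩ := exists_minor hui
  have hΔ0 : Δ ≠ 0 := by
    intro h
    rw [hΔ, h, mul_zero] at hτ0
    exact hτ0 rfl
  obtain ⟨E, hE⟩ : ∃ E : ℤ, E = ∑ i, (c (a (ε0 i)) : ℤ) - ∑ s : Fin (n + 1) ⊕ W, (wts e s : ℤ) := ⟨_, rfl⟩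
  -- the orders of the minors
  have hlow : ∀ (P : Place K L) (τ : Fin (w + 1) → Fin (n + 1) ⊕ W), minor u τ ≠ 0 →
      E * pord P x + P.ord Δ ≤ P.ord (minor u τ) - (∑ j, (wts e (τ j) : ℤ)) * pord P x := by
    intro P τ hτ
    have h1 := hΔ τ
    obtain ⟨D, hD⟩ : ∃ D, D = (Matrix.of fun (p q : Fin r ⊕ Fin (w + 1)) =>
      Sum.elim (fun i => R (a (ε0 i)) (ε q)) (fun j => if ε q = τ j then (1 : L) else 0) p).det :=
        ⟨_, rfl⟩
    rw [← hD] at h1
    have hD0 : D ≠ 0 := by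
      intro h
      rw [h, zero_mul] at h1
      exact hτ h1
    have h2 : Ge P (∑ p : Fin r ⊕ Fin (w + 1), (Sum.elim (fun i => (c (a (ε0 i)) : ℤ) * pord P x)
        (fun j => (wts e (τ j) : ℤ) * pord P x) p) +
        ∑ q : Fin r ⊕ Fin (w + 1), -((wts e (ε q) : ℤ) * pord P x)) D := by
      rw [hD]
      refine ge_det P _ _ _ fun p q => ?_
      rcases p with i | j
      · simp only [Matrix.of_apply, Sum.elim_inl]
        rw [hR]
        refine ge_pderiv P (fun s => ?_) (hG _) _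
        rw [hxdef]
        exact ge_coords (fun i => ⟨_, hG i⟩) hfo z hz hx P s
      · simp only [Matrix.of_apply, Sum.elim_inr]
        split_ifs with h
        · rw [h, add_neg_cancel]
          exact Ge.one
        · exact Ge.zero
    have h3 := h2.resolve_left hD0
    rw [Fintype.sum_sum_type] at h3
    simp only [Sum.elim_inl, Sum.elim_inr] at h3
    have h4 : ∑ q : Fin r ⊕ Fin (w + 1), -((wts e (ε q) : ℤ) * pord P x) =
        -((∑ s : Fin (n + 1) ⊕ W, (wts e s : ℤ)) * pord P x) := by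
      rw [Equiv.sum_comp ε fun s => -((wts e s : ℤ) * pord P x), Finset.sum_neg_distrib,
        Finset.sum_mul]
    rw [h4, ← Finset.sum_mul, ← Finset.sum_mul] at h3
    rw [h1, P.ord_mul hD0 hΔ0, hE]
    linarith
  -- the sum over the places
  obtain ⟨T1, hT1⟩ := exists_supp (k := K) (Finset.univ : Finset (Fin (n + 1))) x
  obtain ⟨T2, hT2⟩ := exists_supp (k := K)
    (Finset.univ : Finset (Fin (w + 1) → Fin (n + 1) ⊕ W)) fun τ => minor u τ
  obtain ⟨T3, hT3⟩ := exists_supp (k := K) (Finset.univ : Finset (Fin 1)) ![Δ]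
  obtain ⟨T, hT⟩ : ∃ T : Finset (Place K L), T = T1 ∪ T2 ∪ T3 := ⟨_, rfl⟩
  have hne : Nonempty {τ : Fin (w + 1) → Fin (n + 1) ⊕ W // minor u τ ≠ 0} := ⟨⟨τ0, hτ0⟩⟩
  have hout : ∀ P : Place K L, P ∉ T → pord P x = 0 ∧ (∀ τ, P.ord (minor u τ) = 0) ∧
      P.ord Δ = 0 := by
    intro P hP
    rw [hT, Finset.mem_union, Finset.mem_union, not_or, not_or] at hP
    refine ⟨?_, fun τ => ?_, ?_⟩
    · obtain ⟨j, hj, hjo⟩ := exists_pord P hxe
      rw [← hjo]
      by_contra h
      exact hP.1.1 (hT1 j (Finset.mem_univ _) P h)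
    · by_contra h
      exact hP.1.2 (hT2 τ (Finset.mem_univ _) P h)
    · by_contra h
      exact hP.2 (hT3 0 (Finset.mem_univ _) P h)
  have hcan : canX K e z u = - ∑ P ∈ T, ⨅ τ : {τ // minor u τ ≠ 0}, (P.ord (minor u τ.1) -
      (∑ j, (wts e (τ.1 j) : ℤ)) * pord P x) := by
    unfold canX
    rw [← hxdef, finsum_eq_sum_of_support_subset]
    intro P hP
    by_contra hcon
    apply hP
    obtain ⟨h1, h2, -⟩ := hout P hcon
    have h3 : (fun τ : {τ : Fin (w + 1) → Fin (n + 1) ⊕ W // minor u τ ≠ 0} =>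
        P.ord (minor u τ.1) - (∑ j, (wts e (τ.1 j) : ℤ)) * pord P x) = fun _ => 0 := by
      funext τ
      rw [h1, h2]
      ring
    change (⨅ τ : {τ : Fin (w + 1) → Fin (n + 1) ⊕ W // minor u τ ≠ 0},
        (P.ord (minor u τ.1) - (∑ j, (wts e (τ.1 j) : ℤ)) * pord P x)) = 0
    rw [h3, ciInf_const]
  have hpht : pht K x = - ∑ P ∈ T, pord P x := by
    unfold pht
    rw [finsum_eq_sum_of_support_subset]
    intro P hP
    by_contra hcon
    exact hP (hout P hcon).1
  have hΔs : ∑ P ∈ T, P.ord Δ = 0 := by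
    refine sum_ord_finset Δ T fun P hP => ?_
    by_contra hcon
    exact hP (hout P hcon).2.2
  have hsum : ∑ P ∈ T, (E * pord P x + P.ord Δ) ≤
      ∑ P ∈ T, ⨅ τ : {τ // minor u τ ≠ 0}, (P.ord (minor u τ.1) -
        (∑ j, (wts e (τ.1 j) : ℤ)) * pord P x) :=
    Finset.sum_le_sum fun P _ => le_ciInf fun τ => hlow P τ.1 τ.2
  rw [Finset.sum_add_distrib, hΔs, add_zero, ← Finset.mul_sum] at hsum
  rw [← hxdef, hcan, hpht, ← hE]
  linarith

end Pool.Agent.N126.RC
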