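import Pool.Agent.N126.RC.CanMain

/-!
Canonical degrees of curves on abelian coverings of generic complete intersections.
-/

set_option autoImplicit false

open MvPolynomial FF Pool.Agent.W603.LV Pool.Agent.W603.PV Pool.Agent.W602.GT
open Pool.Agent.TH145.MG (DimLE)

namespace Pool.Agent.N126.RC

theorem trdeg_adjoin_le {k Ω : Type} [Field k] [Field Ω] [Algebra k Ω] (S : Set Ω) :
    Algebra.trdeg k (IntermediateField.adjoin k S) ≤ Cardinal.mk S := by
  classical
  obtain ⟨E, hE⟩ : ∃ E, E = IntermediateField.adjoin k S := ⟨_, rfl⟩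
  rw [← hE]
  have hS : ∀ y ∈ S, y ∈ E := fun y hy => by
    rw [hE]; exact IntermediateField.subset_adjoin k S hy
  obtain ⟨s, hs⟩ : ∃ s : Set E, s = Subtype.val ⁻¹' S := ⟨_, rfl⟩
  have hlift : ∀ y ∈ Algebra.adjoin k S, ∃ y' : E, y' ∈ Algebra.adjoin k s ∧ (y' : Ω) = y := by
    intro y hy
    induction hy using Algebra.adjoin_induction with
    | mem y hy => exact ⟨⟨y, hS y hy⟩, Algebra.subset_adjoin (by rw [hs]; exact hy), rfl⟩
    | algebraMap r => exact ⟨algebraMap k E r, Subalgebra.algebraMap_mem _ _, rfl⟩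
    | add y y' _ _ h h' =>
      obtain ⟨a, ha, rfl⟩ := h
      obtain ⟨b, hb, rfl⟩ := h'
      exact ⟨a + b, add_mem ha hb, rfl⟩
    | mul y y' _ _ h h' =>
      obtain ⟨a, ha, rfl⟩ := h
      obtain ⟨b, hb, rfl⟩ := h'
      exact ⟨a * b, mul_mem ha hb, rfl⟩
  have halg : Algebra.IsAlgebraic (Algebra.adjoin k s) E := by
    refine ⟨fun y => ?_⟩
    have h1 : (y : Ω) ∈ IntermediateField.adjoin k S := by rw [← hE]; exact y.2
    obtain ⟨r, hr, t, ht, hy⟩ := IntermediateField.mem_adjoin_iff_div.1 h1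
    obtain ⟨r', hr', rfl⟩ := hlift r hr
    obtain ⟨t', ht', rfl⟩ := hlift t ht
    have h2 : y = r' / t' := Subtype.ext hy
    rw [h2]
    have h3 : IsAlgebraic (Algebra.adjoin k s) r' :=
      isAlgebraic_algebraMap (⟨r', hr'⟩ : Algebra.adjoin k s)
    have h4 : IsAlgebraic (Algebra.adjoin k s) t' :=
      isAlgebraic_algebraMap (⟨t', ht'⟩ : Algebra.adjoin k s)
    rw [div_eq_mul_inv]
    exact h3.mul h4.inv
  have h5 := Algebra.IsAlgebraic.trdeg_le_cardinalMk k s
  refine h5.trans ?_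
  rw [hs]
  exact Cardinal.mk_le_of_injective (f := fun y => (⟨y.1.1, y.2⟩ : S)) (by
    rintro ⟨⟨a, ha⟩, ha'⟩ ⟨⟨b, hb⟩, hb'⟩ h
    have : a = b := congrArg Subtype.val h
    subst this
    rfl)

/-- The dimension of projective space. -/
theorem dimLE_space (k : Type) [Field k] (n : ℕ) :
    DimLE k (∅ : Set (MvPolynomial (Fin (n + 1)) k)) n := by
  intro Ω _ _ x hx _
  obtain ⟨i0, hi0⟩ := Function.ne_iff.1 hx
  obtain ⟨S, hS⟩ : ∃ S : Set Ω, S = Set.range fun i : {i // i ≠ i0} => x i / x i0 := ⟨_, rfl⟩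
  have h1 : coords k x = IntermediateField.adjoin k S := by
    apply le_antisymm
    · unfold coords
      rw [IntermediateField.adjoin_le_iff]
      rintro z ⟨i, j, hj, rfl⟩
      have h2 : ∀ i, x i / x i0 ∈ IntermediateField.adjoin k S := by
        intro i
        by_cases h : i = i0
        · rw [h, div_self hi0]; exact one_mem _
        · exact IntermediateField.subset_adjoin k S (by rw [hS]; exact ⟨⟨i, h⟩, rfl⟩)
      have h3 : x i / x j = (x i / x i0) / (x j / x i0) := by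
        rw [div_div_div_cancel_right₀ hi0]
      rw [SetLike.mem_coe, h3]
      exact div_mem (h2 i) (h2 j)
    · rw [IntermediateField.adjoin_le_iff, hS]
      rintro _ ⟨i, rfl⟩
      exact IntermediateField.subset_adjoin _ _ ⟨i, i0, hi0, rfl⟩
  rw [h1]
  refine (trdeg_adjoin_le S).trans ?_
  rw [hS]
  refine Cardinal.mk_range_le.trans ?_
  rw [Cardinal.mk_fintype, Fintype.card_subtype_compl, Fintype.card_fin, Fintype.card_unique]
  simp

section

variable {K : Type} [Field K] {n : ℕ} {A : Type} [DecidableEq A]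

/-- The equations `F a = 0`, `a ∈ C`, and `u_a ^ (q a) = F a`, `a ∉ C`. -/
noncomputable def coverEq (F : A → MvPolynomial (Fin (n + 1)) K) (C : Finset A) (q : A → ℕ) (a : A) :
    MvPolynomial (Fin (n + 1) ⊕ {a // a ∉ C}) K :=
  if h : a ∈ C then rename Sum.inl (F a) else X (Sum.inr ⟨a, h⟩) ^ q a - rename Sum.inl (F a)

/-- The weights `d a / q a` of the coordinates `u_a`. -/
def coverWt (d q : A → ℕ) (C : Finset A) (a : {a // a ∉ C}) : ℕ := d a / q a

variable {d q : A → ℕ} {F : A → MvPolynomial (Fin (n + 1)) K} {C : Finset A}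

omit [DecidableEq A] in
theorem rename_whom {W : Type} (e : W → ℕ) {f : MvPolynomial (Fin (n + 1)) K} {N : ℕ}
    (hf : f.IsHomogeneous N) : (rename Sum.inl f : MvPolynomial (Fin (n + 1) ⊕ W) K)
      |>.IsWeightedHomogeneous (wts e) N := by
  intro α hα
  obtain ⟨β, rfl, hβ⟩ := coeff_rename_ne_zero _ _ _ hα
  have h1 : Finsupp.weight 1 β = N := hf hβ
  rw [← h1, Finsupp.weight_apply, Finsupp.weight_apply, Finsupp.sum_mapDomain_index (by simp)
    (by intro i a b; rw [add_smul])]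
  rfl

theorem coverEq_whom (hF : ∀ a, (F a).IsHomogeneous (d a)) (hq : ∀ a, a ∉ C → q a ∣ d a) (a : A) :
    (coverEq F C q a).IsWeightedHomogeneous (wts (coverWt d q C)) (d a) := by
  unfold coverEq
  split_ifs with h
  · exact rename_whom _ (hF a)
  · refine Submodule.sub_mem (weightedHomogeneousSubmodule K _ (d a)) ?_ (rename_whom _ (hF a))
    have h1 := (isWeightedHomogeneous_X K (wts (n := n) (coverWt d q C)) (Sum.inr ⟨a, h⟩)).pow (q a)
    have h2 : q a • wts (n := n) (coverWt d q C) (Sum.inr ⟨a, h⟩) = d a := by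
      rw [smul_eq_mul]
      exact Nat.mul_div_cancel' (hq a h)
    rw [h2] at h1
    exact h1

theorem coverEq_finite (hq : ∀ a, a ∉ C → q a ≠ 0) : FiniteOver (coverEq F C q) := by
  rintro ⟨a, ha⟩
  refine ⟨Polynomial.X ^ q a - Polynomial.C (F a), Polynomial.monic_X_pow_sub_C _ (hq a ha), ?_⟩
  have h1 : coverEq F C q a ∈ Ideal.span (Set.range (coverEq F C q)) :=
    Ideal.subset_span ⟨a, rfl⟩
  unfold coverEq at h1
  rw [dif_neg ha] at h1
  rw [Polynomial.eval₂_sub, Polynomial.eval₂_pow, Polynomial.eval₂_X, Polynomial.eval₂_C]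
  exact h1

theorem coverEq_over {k : Type} [Field k] [Algebra k K] :
    Over (∅ : Set (MvPolynomial (Fin (n + 1)) k)) F C (coverEq F C q) := by
  intro z hz
  refine ⟨fun f hf => absurd hf (Set.notMem_empty f), fun a ha => ?_⟩
  have h1 := hz a
  unfold coverEq at h1
  rw [dif_pos ha, eval_rename] at h1
  exact h1

theorem coverEq_ramified (_hq : ∀ a, a ∉ C → q a ≠ 0) (a : A) (ha : a ∉ C) :
    RamifiedOver (coverEq F C q) (F a) (q a) := by
  have hG : coverEq F C q a = X (Sum.inr ⟨a, ha⟩) ^ q a - rename Sum.inl (F a) := by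
    unfold coverEq
    rw [dif_neg ha]
  refine ⟨1, 0, fun _ => X (Sum.inr ⟨a, ha⟩), fun i => ?_, fun z hz h j => ?_⟩
  · rw [pow_zero, one_mul]
    have h1 : rename Sum.inl (F a) = X (Sum.inr ⟨a, ha⟩) ^ q a - coverEq F C q a := by
      rw [hG]; ring
    rw [h1]
    refine Submodule.sub_mem _ (Ideal.mem_sup_left ?_) (Ideal.mem_sup_right
      (Ideal.subset_span ⟨a, rfl⟩))
    have h2 : (X (Sum.inr ⟨a, ha⟩) : MvPolynomial (Fin (n + 1) ⊕ {a // a ∉ C}) K) ∈
        Ideal.span (Set.range fun _ : Fin 1 => (X (Sum.inr ⟨a, ha⟩) :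
          MvPolynomial (Fin (n + 1) ⊕ {a // a ∉ C}) K)) := Ideal.subset_span ⟨0, rfl⟩
    exact Ideal.pow_mem_pow h2 _
  · have h1 := hz a
    rw [hG, map_sub, h, sub_zero, map_pow] at h1
    exact eq_zero_of_pow_eq_zero h1

end

variable {k K : Type} [Field k] [Field K] [IsAlgClosed K] [CharZero K] [Algebra k K]
  {n : ℕ} {A : Type} [Fintype A] [DecidableEq A] {d q : A → ℕ}

/-- The canonical bundle of the covering. -/
theorem coverEq_canonical (F : A → MvPolynomial (Fin (n + 1)) K) (hF : ∀ a, (F a).IsHomogeneous (d a))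
    (C : Finset A) (hq0 : ∀ a, a ∉ C → q a ≠ 0) (hq : ∀ a, a ∉ C → q a ∣ d a) {w : ℕ}
    (hw : w + C.card = n) : CanonicalBound (coverWt d q C) (coverEq F C q) w
      (∑ a ∈ C, (d a : ℚ) + ∑ a ∈ Cᶜ, (d a : ℚ) * (1 - 1 / q a) - n - 1) := by
  intro L _ _ _ z c0 hz1 hz _ u hu
  obtain ⟨r, a, ha, hr, h1⟩ := canX_le (coverEq_whom hF hq) (coverEq_finite hq0) z hz
    (ne_zero_of_one hz1) u hu
  have hcard : Fintype.card {a // a ∉ C} + C.card = Fintype.card A := by
    have h2 := Fintype.card_subtype_compl (fun a => a ∈ C)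
    have h3 : Fintype.card {a // a ∈ C} = C.card := Fintype.card_coe C
    have h4 : C.card ≤ Fintype.card A := Finset.card_le_univ C
    rw [h3] at h2
    omega
  rw [Fintype.card_sum, Fintype.card_fin] at hr
  have hrA : r = Fintype.card A := by omega
  have hbij : Function.Bijective a := (Fintype.bijective_iff_injective_and_card a).2
    ⟨ha, by rw [Fintype.card_fin, hrA]⟩
  have h2 : ∑ i, (d (a i) : ℤ) = ∑ a, (d a : ℤ) := hbij.sum_comp fun a => (d a : ℤ)
  have h3 : (∑ s : Fin (n + 1) ⊕ {a // a ∉ C}, (wts (coverWt d q C) s : ℤ)) =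
      (n + 1) + ∑ a : {a // a ∉ C}, ((d a / q a : ℕ) : ℤ) := by
    rw [Fintype.sum_sum_type]
    simp only [wts, Sum.elim_inl, Sum.elim_inr, Nat.cast_one, Finset.sum_const, Finset.card_univ,
      Fintype.card_fin, nsmul_eq_mul, mul_one]
    push_cast
    rfl
  rw [h2, h3] at h1
  have h4 : ((canX K (coverWt d q C) z u : ℤ) : ℚ) ≤ ((∑ a, (d a : ℚ)) -
      ((n + 1) + ∑ a : {a // a ∉ C}, ((d a / q a : ℕ) : ℚ))) *
        (pht K (fun j => z (Sum.inl j)) : ℤ) := by
    exact_mod_cast h1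
  have h5 : ∑ a : {a // a ∉ C}, ((d a / q a : ℕ) : ℚ) = ∑ a ∈ Cᶜ, (d a : ℚ) / q a := by
    rw [← Finset.sum_subtype (s := Cᶜ) (p := fun a => a ∉ C) (by simp)
      (fun a => ((d a / q a : ℕ) : ℚ))]
    refine Finset.sum_congr rfl fun a ha => ?_
    rw [Finset.mem_compl] at ha
    rw [Nat.cast_div (hq a ha) (by exact_mod_cast hq0 a ha)]
  have h6 : ∑ a ∈ Cᶜ, (d a : ℚ) * (1 - 1 / q a) = ∑ a ∈ Cᶜ, (d a : ℚ) -
      ∑ a ∈ Cᶜ, (d a : ℚ) / q a := by
    rw [← Finset.sum_sub_distrib]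
    exact Finset.sum_congr rfl fun a _ => by ring
  have h7 : ∑ a ∈ C, (d a : ℚ) + ∑ a ∈ Cᶜ, (d a : ℚ) = ∑ a, (d a : ℚ) :=
    Finset.sum_add_sum_compl C _
  rw [h5] at h4
  refine h4.trans (le_of_eq ?_)
  rw [h6, ← h7]
  ring

/-- Vojta's inequality for the abelian coverings of generic complete intersections. -/
theorem vojta_cover (F : A → MvPolynomial (Fin (n + 1)) K) (hF : Generic k d F)
    (C : Finset A) (hq0 : ∀ a, a ∉ C → q a ≠ 0) (hq : ∀ a, a ∉ C → q a ∣ d a) {w : ℕ}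
    (hw1 : 1 ≤ w) (hw : w + C.card = n) {S : ℚ}
    (hS : S = ∑ a ∈ C, (d a : ℚ) + ∑ a ∈ Cᶜ, (d a : ℚ) * (1 - 1 / q a)) (hS1 : (n : ℚ) + w < S) :
    CanonicalGenusBound (coverWt d q C) (coverEq F C q) w ((S - n - 1) / (S - n - w)) ∧
      (S - n - 1 ≤ 2 * (S - n - w) → CanonicalGenusBound (coverWt d q C) (coverEq F C q) w 2) := by
  have hwn : (w : ℚ) + C.card = n := by exact_mod_cast hw
  have h1 : ∑ a ∈ C, ((d a : ℚ) + 1) + ∑ a ∈ Cᶜ, (d a : ℚ) * (1 - 1 / q a) - 2 * n = S - n - w := by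
    rw [Finset.sum_add_distrib, hS, ← hwn]
    simp
    ring
  have hw1' : (1 : ℚ) ≤ w := by exact_mod_cast hw1
  have hκ := coverEq_canonical (K := K) F hF.1 C hq0 hq hw
  rw [← hS] at hκ
  have h2 := canonical_genus (k := k) (∅ : Set (MvPolynomial (Fin (n + 1)) (algebraicClosure k K)))
    (fun f hf => absurd hf (Set.notMem_empty f)) (dimLE_space _ n) F hF C hq0
    (by linarith) (coverWt d q C) (coverEq F C q) (fun a => ⟨_, coverEq_whom hF.1 hq a⟩)
    (coverEq_finite hq0) coverEq_over (coverEq_ramified hq0) w (S - n - 1) (by linarith) hκ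
  rw [h1] at h2
  refine ⟨h2, fun h3 => ?_⟩
  intro L _ _ _ z c hz1 hz hnc u hu
  have h4 := h2 L z c hz1 hz hnc u hu
  have h5 := curve_proj (k := k) (∅ : Set (MvPolynomial (Fin (n + 1)) (algebraicClosure k K)))
    (fun f hf => absurd hf (Set.notMem_empty f)) (dimLE_space _ n) F hF C hq0
    (coverWt d q C) (coverEq F C q) (fun a => ⟨_, coverEq_whom hF.1 hq a⟩)
    (coverEq_finite hq0) coverEq_over (coverEq_ramified hq0) L z c hz1 hz hnc
  have h6 : (0 : ℚ) ≤ pht K (fun j => z (Sum.inl j)) := by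
    exact_mod_cast pht_nonneg' (K := K) (c := c) hz1
  rw [h1] at h5
  have h7 : (0 : ℚ) ≤ canDeg K L := le_trans (mul_nonneg (by linarith) h6) h5
  refine h4.trans (mul_le_mul_of_nonneg_right ?_ h7)
  rw [div_le_iff₀ (by linarith)]
  exact h3

end Pool.Agent.N126.RC
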