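import Pool.Agent.N126.RC.DefsC

/-!
Canonical degrees of curves on closed subsets of weighted projective spaces: definitions.
-/

set_option autoImplicit false

open MvPolynomial FF Pool.Agent.W603.LV Pool.Agent.W603.PV

namespace Pool.Agent.N126.RC

variable {n : ℕ} {W ι : Type}

/-- The vectors `u 0, …, u w` are a basis of the tangent space at the point `z` of the affine cone
over `X = {G = 0}`. -/
def TangentBasis {K L : Type} [Field K] [Field L] [Algebra K L] [Fintype W]
    (G : ι → MvPolynomial (Fin (n + 1) ⊕ W) K) (z : Fin (n + 1) ⊕ W → L) {w : ℕ}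
    (u : Fin (w + 1) → Fin (n + 1) ⊕ W → L) : Prop :=
  LinearIndependent L u ∧ ∀ v, v ∈ Submodule.span L (Set.range u) ↔
    ∀ i, ∑ s, aeval z (pderiv s (G i)) * v s = 0

/-- The minor with the columns `τ 0, …, τ (N - 1)` of the matrix with the rows `u 0, …, u (N - 1)`. -/
noncomputable def minor {σ L : Type} [Field L] {N : ℕ} (u : Fin N → σ → L) (τ : Fin N → σ) : L :=
  (Matrix.of fun i j => u i (τ j)).det

variable (K : Type) {L : Type} [Field K] [Field L] [Algebra K L]

/-- The degree of the canonical divisor of the smooth `w`-dimensional variety `X` on the curve given by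
the point `z` of `X` over the function field `L` of the curve, where `u 0, …, u w` is a basis of the
tangent space at `z` of the cone over `X`: minus the degree of the determinant of the tangent bundle
of the cone, a subbundle of the direct sum of the line bundles `O (weight of s)`, `s` a coordinate. At
the place `P`, the order of the rational section `u 0 ∧ ⋯ ∧ u w` of this determinant is the minimum of
the orders of the minors, relative to local generators of the bundles `O (weight of s)`, whose order is
the product of the weight of `s` and of the least order `pord` of the coordinates `x` (which have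
weight `1`). -/
noncomputable def canX (e : W → ℕ) (z : Fin (n + 1) ⊕ W → L) {w : ℕ}
    (u : Fin (w + 1) → Fin (n + 1) ⊕ W → L) : ℤ :=
  - ∑ᶠ P : Place K L, ⨅ τ : {τ // minor u τ ≠ 0}, (P.ord (minor u τ.1) -
    (∑ j, (wts e (τ.1 j) : ℤ)) * pord P (fun j => z (Sum.inl j)))

variable {K}

/-- The degree of the canonical divisor of `X` is at most `κ` times the degree of the inverse image of
the hyperplane class, for all curves on `X`. -/
def CanonicalBound [Fintype W] (e : W → ℕ) (G : ι → MvPolynomial (Fin (n + 1) ⊕ W) K) (w : ℕ)
    (κ : ℚ) : Prop :=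
  ∀ (L : Type) [Field L] [Algebra K L] [IsFF K L] (z : Fin (n + 1) ⊕ W → L) (c : Fin (n + 1)),
    z (Sum.inl c) = 1 → (∀ i, aeval z (G i) = 0) → (∃ v, z v ∉ Set.range (algebraMap K L)) →
    ∀ u : Fin (w + 1) → Fin (n + 1) ⊕ W → L, TangentBasis G z u →
      canX K e z u ≤ κ * pht K (fun j => z (Sum.inl j))

/-- The inequality `K_X · C ≤ A (2 g - 2)` for all curves on `X` (for all nonconstant maps from smooth
projective curves, with function field `L` and genus `g`, to `X`). -/
def CanonicalGenusBound [IsAlgClosed K] [CharZero K] [Fintype W] (e : W → ℕ)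
    (G : ι → MvPolynomial (Fin (n + 1) ⊕ W) K) (w : ℕ) (A : ℚ) : Prop :=
  ∀ (L : Type) [Field L] [Algebra K L] [IsFF K L] (z : Fin (n + 1) ⊕ W → L) (c : Fin (n + 1)),
    z (Sum.inl c) = 1 → (∀ i, aeval z (G i) = 0) → (∃ v, z v ∉ Set.range (algebraMap K L)) →
    ∀ u : Fin (w + 1) → Fin (n + 1) ⊕ W → L, TangentBasis G z u → canX K e z u ≤ A * canDeg K L

end Pool.Agent.N126.RC
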