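import Pool.Agent.N126.RC.FinCover
import Pool.Agent.TH145.GE.CurveMain

/-!
Curves in finite coverings ramified over generic hypersurfaces.
-/

set_option autoImplicit false

open MvPolynomial FF Pool.Agent.W603.LV Pool.Agent.W603.PV Pool.Agent.W602.GT Pool.Agent.TH145.GH
open Pool.Agent.TH145.MG (DimLE)
open Pool.Agent.TH145.GK (ord_ge)

namespace Pool.Agent.N126.RC

/-- The multiplicities at all places. -/
theorem mult_all {K L : Type} [Field K] [IsAlgClosed K] [Field L] [Algebra K L] {n : ℕ}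
    {W ι : Type} [Finite W] (e : W → ℕ) (G : ι → MvPolynomial (Fin (n + 1) ⊕ W) K)
    (hGh : ∀ i, ∃ c, (G i).IsWeightedHomogeneous (wts e) c) (hfo : FiniteOver G)
    {F : MvPolynomial (Fin (n + 1)) K} {d q : ℕ} (hF : F.IsHomogeneous d) (hram : RamifiedOver G F q)
    (z : Fin (n + 1) ⊕ W → L) (hz : ∀ i, aeval z (G i) = 0)
    (hx0 : (fun j => z (Sum.inl j)) ≠ 0) (hF0 : aeval (fun j => z (Sum.inl j)) F ≠ 0)
    (Q : Place K L) (hlt : d * pord Q (fun j => z (Sum.inl j)) <
      Q.ord (aeval (fun j => z (Sum.inl j)) F)) :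
    d * pord Q (fun j => z (Sum.inl j)) + q ≤ Q.ord (aeval (fun j => z (Sum.inl j)) F) := by
  obtain ⟨T, hT⟩ := Pool.Agent.N617.RC.main_MULT K n W ι e G F d q hGh hF hfo
    (Pool.Agent.N263.RC.main_NS K n W ι G F q hram)
  obtain ⟨S0, hS0⟩ := hT K (RingHom.id K) (fun t _ => ⟨t, rfl⟩) G F
    (fun i => map_id _) (map_id _)
  have hzs : Sum.elim (fun j => z (Sum.inl j)) (fun w => z (Sum.inr w)) = z := by
    funext v
    rcases v with j | w <;> rfl
  exact hS0 K L Q (algebraMap K L) (fun s _ => Ge.const s) _ (fun w => z (Sum.inr w)) hx0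
    (fun i => by rw [hzs]; exact hz i) hF0 hlt

/-- If the coordinates `x` are constant then the coordinates `u` are constant. -/
theorem const_of_x {K L : Type} [Field K] [IsAlgClosed K] [Field L] [Algebra K L] {n : ℕ}
    {W ι : Type} {G : ι → MvPolynomial (Fin (n + 1) ⊕ W) K} (hfo : FiniteOver G)
    (z : Fin (n + 1) ⊕ W → L) (hz : ∀ i, aeval z (G i) = 0)
    (h : ∀ j, z (Sum.inl j) ∈ Set.range (algebraMap K L)) (v : Fin (n + 1) ⊕ W) :
    z v ∈ Set.range (algebraMap K L) := by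
  rcases v with j | w
  · exact h j
  choose r hr using h
  obtain ⟨p, hp, hpG⟩ := hfo w
  have h1 := mon_point p hpG hz
  have h2 : (aeval fun i => z (Sum.inl i) : MvPolynomial (Fin (n + 1)) K →ₐ[K] L).toRingHom =
      (algebraMap K L).comp (eval r) := by
    apply MvPolynomial.ringHom_ext
    · intro a
      simp
    · intro i
      simp [hr]
  rw [h2, ← Polynomial.map_map, Polynomial.eval_map] at h1
  have h3 : IsIntegral K (z (Sum.inr w)) := ⟨p.map (eval r), hp.map _, h1⟩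
  exact minpoly.mem_range_of_degree_eq_one K _
    (IsAlgClosed.degree_eq_one_of_irreducible K (minpoly.irreducible h3))

/-- The number of the zeros of a form on a curve, if their multiplicities are at least `q`. -/
theorem zeros_le {K L : Type} [Field K] [IsAlgClosed K] [CharZero K] [Field L] [Algebra K L]
    [IsFF K L] {n : ℕ} {F : MvPolynomial (Fin (n + 1)) K} {d q : ℕ} (hF : F.IsHomogeneous d)
    {x : Fin (n + 1) → L} (hx0 : x ≠ 0) (hF0 : aeval x F ≠ 0)
    (hm : ∀ Q : Place K L, d * pord Q x < Q.ord (aeval x F) →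
      d * pord Q x + q ≤ Q.ord (aeval x F)) :
    {P : Place K L | d * pord P x < P.ord (aeval x F)}.Finite ∧
    (q : ℤ) * {P : Place K L | d * pord P x < P.ord (aeval x F)}.ncard ≤ d * pht K x := by
  classical
  have hxe : ∃ j, x j ≠ 0 := Function.ne_iff.1 hx0
  have hge : ∀ P : Place K L, d * pord P x ≤ P.ord (aeval x F) := by
    intro P
    have h1 := ord_ge P (hF.map (algebraMap K L)) (g := 0) (fun u => by
      rw [coeff_map, neg_zero]
      exact Ge.const _) hx0 (by rw [eval_map]; exact hF0)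
    rw [eval_map] at h1
    have h2 : aeval x F = eval₂ (algebraMap K L) x F := rfl
    rw [← h2] at h1
    linarith
  obtain ⟨v, hv⟩ : ∃ v : Place K L → ℤ, ∀ P, v P = P.ord (aeval x F) - d * pord P x :=
    ⟨_, fun _ => rfl⟩
  have hfs : (Function.support fun P : Place K L => (d : ℤ) * pord P x).Finite := by
    refine (pord_finite hxe).subset fun P hP => ?_
    rw [Function.mem_support] at hP ⊢
    exact fun h => hP (by rw [h, mul_zero])
  have hsum : ∑ᶠ P, v P = d * pht K x := by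
    have h1 : v = fun P => P.ord (aeval x F) - d * pord P x := funext hv
    rw [h1, finsum_sub_distrib (finite_support _) hfs, sum_ord, ← mul_finsum]
    unfold pht
    ring
  have hvf : (Function.support v).Finite := by
    refine ((finite_support (k := K) (aeval x F)).union hfs).subset fun P hP => ?_
    by_contra hcon
    rw [Set.mem_union, not_or] at hcon
    have h2 : P.ord (aeval x F) = 0 := not_not.1 hcon.1
    have h3 : (d : ℤ) * pord P x = 0 := not_not.1 hcon.2
    exact hP (by rw [hv, h2, h3, sub_zero])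
  have hset : {P : Place K L | d * pord P x < P.ord (aeval x F)} = Function.support v := by
    ext P
    have h4 := hge P
    change d * pord P x < P.ord (aeval x F) ↔ v P ≠ 0
    rw [hv]
    constructor
    · intro h; omega
    · intro h; omega
  rw [hset]
  refine ⟨hvf, ?_⟩
  rw [← hsum, finsum_eq_sum_of_support_subset (s := hvf.toFinset) _ (by simp),
    Set.ncard_eq_toFinset_card _ hvf]
  have h2 : ∑ P ∈ hvf.toFinset, (q : ℤ) ≤ ∑ P ∈ hvf.toFinset, v P := by
    refine Finset.sum_le_sum fun P hP => ?_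
    rw [Set.Finite.mem_toFinset, ← hset] at hP
    have := hm P hP
    rw [hv]
    linarith
  rw [Finset.sum_const, nsmul_eq_mul, mul_comm] at h2
  exact h2

/-- **Curves in ramified coverings.** -/
theorem curve_cover {k0 K L : Type} [Field k0] [Field K] [Algebra k0 K] [IsAlgClosed K]
    [CharZero K] [Field L] [Algebra K L] [IsFF K L] {n m : ℕ} {A : Type} {d q : A → ℕ} [Fintype A]
    [DecidableEq A] (C : Finset A) (V : Set (MvPolynomial (Fin (n + 1)) k0))
    (hVh : ∀ f ∈ V, ∃ e, f.IsHomogeneous e)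
    (hV : DimLE k0 V m) {F : A → MvPolynomial (Fin (n + 1)) K} (hF : Generic k0 d F)
    {W ι : Type} [Finite W] (e : W → ℕ)
    (G : ι → MvPolynomial (Fin (n + 1) ⊕ W) K)
    (hGh : ∀ i, ∃ c, (G i).IsWeightedHomogeneous (wts e) c) (hfo : FiniteOver G)
    (hov : Over V F C G) (hram : ∀ a, a ∉ C → q a ≠ 0 → RamifiedOver G (F a) (q a))
    (z : Fin (n + 1) ⊕ W → L) (c : Fin (n + 1)) (hc : z (Sum.inl c) = 1)
    (hz : ∀ i, aeval z (G i) = 0) (hnc : ∃ v, z v ∉ Set.range (algebraMap K L))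
    (S : Finset (Place K L)) (hS : ∀ P, P ∉ S → ∀ a, a ∉ C → q a = 0 →
      P.ord (aeval (fun j => z (Sum.inl j)) (F a)) ≤ d a * pord P (fun j => z (Sum.inl j))) :
    (∑ a ∈ C, ((d a : ℚ) + 1) + ∑ a ∈ Cᶜ, (d a : ℚ) * (1 - 1 / q a) - 2 * m) *
      pht K (fun j => z (Sum.inl j)) ≤ canDeg K L + S.card := by
  classical
  obtain ⟨hFh, I0, hI0, hind⟩ := hF
  obtain ⟨x, hx⟩ : ∃ x : Fin (n + 1) → L, x = fun j => z (Sum.inl j) := ⟨_, rfl⟩
  have hxc : x c = 1 := by rw [hx]; exact hc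
  have hxc0 : x c ≠ 0 := by rw [hxc]; exact one_ne_zero
  have hx0 : x ≠ 0 := fun h => hxc0 (by rw [h]; rfl)
  have hren : ∀ g : MvPolynomial (Fin (n + 1)) K,
      aeval z (rename (Sum.inl : Fin (n + 1) → Fin (n + 1) ⊕ W) g) = aeval x g := by
    intro g
    rw [aeval_rename, hx]
    rfl
  have hrenK : ∀ (g : MvPolynomial (Fin (n + 1)) K) (y : Fin (n + 1) ⊕ W → K),
      eval y (rename (Sum.inl : Fin (n + 1) → Fin (n + 1) ⊕ W) g) =
        eval (fun j => y (Sum.inl j)) g := by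
    intro g y
    rw [eval_rename]
    rfl
  have hxV : ∀ f ∈ V, aeval x (map (algebraMap k0 K) f) = 0 := by
    intro f hf
    rw [← hren]
    refine ns_point G _ (fun y hy => ?_) z hz
    rw [hrenK, eval_map]
    exact (hov y hy).1 f hf
  have hxC : ∀ a ∈ C, aeval x (F a) = 0 := by
    intro a ha
    rw [← hren]
    refine ns_point G _ (fun y hy => ?_) z hz
    rw [hrenK]
    exact (hov y hy).2 a ha
  obtain ⟨C', hC'⟩ : ∃ C' : Finset A, ∀ a, a ∈ C' ↔ aeval x (F a) = 0 :=
    ⟨Finset.univ.filter fun a => aeval x (F a) = 0, fun a => by simp⟩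
  have hsub : C ⊆ C' := fun a ha => (hC' a).2 (hxC a ha)
  have hCn : ∀ a, a ∉ C' → a ∉ C := fun a ha h => ha (hsub h)
  have hxnc : ∃ i j, x j ≠ 0 ∧ x i / x j ∉ Set.range (algebraMap K L) := by
    by_contra hcon
    push Not at hcon
    obtain ⟨v, hv⟩ := hnc
    refine hv (const_of_x hfo z hz (fun j => ?_) v)
    have h1 := hcon j c hxc0
    rw [hxc, div_one] at h1
    rw [hx] at h1
    exact h1
  have h1 := Pool.Agent.TH145.GE.curve_generic V hVh hV F hFh I0 hI0 hind C' x hxnc hxV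
    (fun a ha => (hC' a).1 ha) (fun a ha h => ha ((hC' a).2 h))
  have hpht : 0 ≤ pht K x := by
    unfold pht
    rw [← finsum_neg_distrib]
    refine finsum_nonneg fun P => ?_
    have := pord_le P (f := x) hxc0
    rw [hxc, P.ord_one] at this
    omega
  -- the zeros
  obtain ⟨Z, hZ⟩ : ∃ Z : A → Set (Place K L), ∀ a, Z a =
    {P | d a * pord P x < P.ord (aeval x (F a))} := ⟨_, fun _ => rfl⟩
  have hZq : ∀ a, a ∉ C' → q a ≠ 0 → (Z a).Finite ∧ (q a : ℤ) * (Z a).ncard ≤ d a * pht K x := by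
    intro a ha hqa
    rw [hZ]
    have hFa : aeval x (F a) ≠ 0 := fun h => ha ((hC' a).2 h)
    refine zeros_le (hFh a) hx0 hFa fun Q hQ => ?_
    rw [hx]
    rw [hx] at hQ hFa hx0
    exact mult_all e G hGh hfo (hFh a) (hram a (hCn a ha) hqa) z hz hx0 hFa Q hQ
  have hcover : {P : Place K L | ∃ a, a ∉ C' ∧ d a * pord P x < P.ord (aeval x (F a))} ⊆
      (S : Set (Place K L)) ∪ ⋃ a ∈ (C'ᶜ.filter fun a => q a ≠ 0 : Finset A), Z a := by
    rintro P ⟨a, ha, hP⟩
    by_cases hqa : q a = 0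
    · left
      by_contra hPS
      have := hS P hPS a (hCn a ha) hqa
      rw [← hx] at this
      linarith
    · right
      rw [Set.mem_iUnion₂]
      refine ⟨a, ?_, ?_⟩
      · rw [Finset.mem_filter, Finset.mem_compl]
        exact ⟨ha, hqa⟩
      · rw [hZ]; exact hP
  have hZfin : (⋃ a ∈ (C'ᶜ.filter fun a => q a ≠ 0 : Finset A), Z a).Finite := by
    refine Set.Finite.biUnion (Finset.finite_toSet _) fun a ha => ?_
    rw [Finset.mem_coe, Finset.mem_filter, Finset.mem_compl] at ha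
    exact (hZq a ha.1 ha.2).1
  have h2 : {P : Place K L | ∃ a, a ∉ C' ∧ d a * pord P x < P.ord (aeval x (F a))}.ncard ≤
      S.card + ∑ a ∈ C'ᶜ.filter (fun a => q a ≠ 0), (Z a).ncard := by
    refine (Set.ncard_le_ncard hcover (S.finite_toSet.union hZfin)).trans ?_
    refine (Set.ncard_union_le _ _).trans (add_le_add ?_ ?_)
    · rw [Set.ncard_coe_finset]
    · exact Finset.set_ncard_biUnion_le _ _
  have h3 : ((∑ a ∈ C'ᶜ.filter (fun a => q a ≠ 0), (Z a).ncard : ℕ) : ℚ) ≤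
      ∑ a ∈ C'ᶜ, (d a : ℚ) * (1 / q a) * pht K x := by
    rw [Nat.cast_sum]
    refine le_trans (Finset.sum_le_sum fun a ha => ?_)
      (Finset.sum_le_sum_of_subset_of_nonneg (Finset.filter_subset _ _) fun a _ _ => ?_)
    · rw [Finset.mem_filter, Finset.mem_compl] at ha
      have h4 := (hZq a ha.1 ha.2).2
      have h5 : (0 : ℚ) < q a := by exact_mod_cast Nat.pos_of_ne_zero ha.2
      have h6 : (q a : ℚ) * (Z a).ncard ≤ d a * pht K x := by exact_mod_cast h4
      rw [mul_assoc, mul_comm (1 / (q a : ℚ)), ← mul_assoc, mul_one_div, le_div_iff₀ h5, mul_comm]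
      exact h6
    · have : (0 : ℚ) ≤ pht K x := by exact_mod_cast hpht
      positivity
  have h4 : (((∑ a, d a : ℕ) : ℚ) + C'.card - 2 * m) * pht K x ≤ canDeg K L +
      {P : Place K L | ∃ a, a ∉ C' ∧ d a * pord P x < P.ord (aeval x (F a))}.ncard := by
    exact_mod_cast h1
  have h5 : (({P : Place K L | ∃ a, a ∉ C' ∧ d a * pord P x < P.ord (aeval x (F a))}.ncard : ℕ) :
      ℚ) ≤ S.card + ∑ a ∈ C'ᶜ, (d a : ℚ) * (1 / q a) * pht K x := by
    refine le_trans (by exact_mod_cast h2) (add_le_add le_rfl h3)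
  have h6 : ∑ a ∈ C'ᶜ, (d a : ℚ) * (1 / q a) ≤ ∑ a ∈ Cᶜ, (d a : ℚ) * (1 / q a) :=
    Finset.sum_le_sum_of_subset_of_nonneg (Finset.compl_subset_compl.2 hsub)
      fun _ _ _ => by positivity
  have h7 : ∑ a ∈ Cᶜ, (d a : ℚ) * (1 - 1 / q a) = ∑ a ∈ Cᶜ, (d a : ℚ) -
      ∑ a ∈ Cᶜ, (d a : ℚ) * (1 / q a) := by
    rw [← Finset.sum_sub_distrib]
    exact Finset.sum_congr rfl fun a _ => by ring
  have h8 : ∑ a ∈ C, ((d a : ℚ) + 1) = ∑ a ∈ C, (d a : ℚ) + C.card := by
    rw [Finset.sum_add_distrib]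
    simp
  have h9 : ∑ a ∈ C, (d a : ℚ) + ∑ a ∈ Cᶜ, (d a : ℚ) = ∑ a, (d a : ℚ) :=
    Finset.sum_add_sum_compl C _
  have h10 : (C.card : ℚ) ≤ C'.card := by exact_mod_cast Finset.card_le_card hsub
  have h11 : (0 : ℚ) ≤ pht K x := by exact_mod_cast hpht
  rw [← hx]
  rw [← Finset.sum_mul] at h5
  have h12 : (∑ a ∈ C, ((d a : ℚ) + 1) + ∑ a ∈ Cᶜ, (d a : ℚ) * (1 - 1 / q a) - 2 * m) *
      pht K x ≤ (((∑ a, d a : ℕ) : ℚ) + C'.card - 2 * m - ∑ a ∈ C'ᶜ, (d a : ℚ) * (1 / q a)) *
        pht K x := by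
    refine mul_le_mul_of_nonneg_right ?_ h11
    rw [h7, h8, Nat.cast_sum]
    linarith
  linarith

end Pool.Agent.N126.RC
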