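import Pool.Agent.N126.RC.Defs
import Pool.Agent.W603.LV.Ex

/-!
The degrees of the curves in closed subsets of weighted projective spaces.
-/

set_option autoImplicit false

open MvPolynomial FF Pool.Agent.W603.LV Pool.Agent.W603.PV Pool.Agent.W602.GT

namespace Pool.Agent.N126.RC

variable {n : ℕ} {W ι A : Type}

/-- The nonconstant maps from curves to `X = {G = 0}`: `τ deg f ≤ 2 g - 2`, where `g` is the genus of
the smooth projective curve with the function field `L`, the coordinates `z` with `z (inl c) = 1`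
define the map `f`, and the degree `pht` of `f` is the degree of the inverse image of the hyperplane
class under `(x, u) ↦ x`. -/
def CurveBound {K : Type} [Field K] [IsAlgClosed K] [CharZero K]
    (G : ι → MvPolynomial (Fin (n + 1) ⊕ W) K) (τ : ℚ) : Prop :=
  ∀ (L : Type) [Field L] [Algebra K L] [IsFF K L] (z : Fin (n + 1) ⊕ W → L) (c : Fin (n + 1)),
    z (Sum.inl c) = 1 → (∀ i, aeval z (G i) = 0) → (∃ v, z v ∉ Set.range (algebraMap K L)) →
    τ * pht K (fun j => z (Sum.inl j)) ≤ canDeg K L

/-- The nonconstant maps from affine curves to `X ∖ ⋃ {F b = 0}`, `b ∈ B`: `τ deg f ≤ 2 g - 2 + s`,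
where `s` is the number of the points at infinity (the set `S`) of the curve; outside of `S`, the
forms `F b` do not vanish at the points of the image. -/
def AffineCurveBound {K : Type} [Field K] [IsAlgClosed K] [CharZero K]
    (G : ι → MvPolynomial (Fin (n + 1) ⊕ W) K) (F : A → MvPolynomial (Fin (n + 1)) K) (d : A → ℕ)
    (B : Set A) (τ : ℚ) : Prop :=
  ∀ (L : Type) [Field L] [Algebra K L] [IsFF K L] (S : Finset (Place K L))
    (z : Fin (n + 1) ⊕ W → L) (c : Fin (n + 1)),
    z (Sum.inl c) = 1 → (∀ i, aeval z (G i) = 0) → (∃ v, z v ∉ Set.range (algebraMap K L)) →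
    (∀ b ∈ B, aeval (fun j => z (Sum.inl j)) (F b) ≠ 0 ∧ ∀ P ∉ S,
      P.ord (aeval (fun j => z (Sum.inl j)) (F b)) ≤ d b * pord P (fun j => z (Sum.inl j))) →
    τ * pht K (fun j => z (Sum.inl j)) ≤ canDeg K L + S.card

end Pool.Agent.N126.RC
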