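import Pool.Agent.N126.RC.Stm
import Pool.Agent.W602.GT.Defs
import Pool.Agent.W603.PV.Hgt

/-!
Finiteness of the points, general type, for closed subsets of weighted projective spaces.
-/

set_option autoImplicit false

open MvPolynomial FF Pool.Agent.W603.LV Pool.Agent.W603.PV Pool.Agent.W602.GT

namespace Pool.Agent.N126.RC

variable {n : ℕ} {W ι A : Type}

/-- `X = {G = 0}` (in the weighted projective space) has only finitely many points with coordinates
in any given field generated over `k` by finitely many elements of `K`. -/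
def FinitePoints (k : Type) {K : Type} [Field k] [Field K] [Algebra k K] (e : W → ℕ)
    (G : ι → MvPolynomial (Fin (n + 1) ⊕ W) K) : Prop :=
  ∀ T : Finset K, ∃ S : Finset (Fin (n + 1) ⊕ W → K), ∀ z : Fin (n + 1) ⊕ W → K, z ≠ 0 →
    (∀ i, eval z (G i) = 0) → (∀ v, z v ∈ IntermediateField.adjoin k (T : Set K)) →
    ∃ s ∈ S, ∃ t : K, ∀ v, z v = t ^ wts e v * s v

/-- Every variety of dimension `w ≥ 1` with a generically finite rational map to `X = {G = 0}` is of
general type, in particular every closed subvariety of `X` of positive dimension: `L` is its function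
field, and `z` is the image in `X` of its generic point, in coordinates with `z (inl c) = 1`. -/
def CoversGeneral {K : Type} [Field K] (G : ι → MvPolynomial (Fin (n + 1) ⊕ W) K) : Prop :=
  ∀ (L : Type) [Field L] [Algebra K L] (w : ℕ) (z : Fin (n + 1) ⊕ W → L) (c : Fin (n + 1)), 0 < w →
    Algebra.trdeg K L = w → z (Sum.inl c) = 1 → (∀ i, aeval z (G i) = 0) →
    Algebra.IsAlgebraic (IntermediateField.adjoin K (Set.range z)) L → GeneralType K L w

/-- The integral points: `X ∖ ⋃ {F b = 0}`, `b ∈ B`, has only finitely many points `z` with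
coordinates in the field generated by `T` over `k` such that the values of the regular functions
`x_j ^ d_b / F_b` are in the ring generated by `T` over `k`, for each finite set `T`. -/
def FiniteIntegral (k : Type) {K : Type} [Field k] [Field K] [Algebra k K] (e : W → ℕ)
    (G : ι → MvPolynomial (Fin (n + 1) ⊕ W) K) (F : A → MvPolynomial (Fin (n + 1)) K) (d : A → ℕ)
    (B : Set A) : Prop :=
  ∀ T : Finset K, ∃ S : Finset (Fin (n + 1) ⊕ W → K), ∀ z : Fin (n + 1) ⊕ W → K, z ≠ 0 →
    (∀ i, eval z (G i) = 0) → (∀ v, z v ∈ IntermediateField.adjoin k (T : Set K)) →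
    (∀ b ∈ B, eval (fun j => z (Sum.inl j)) (F b) ≠ 0 ∧
      ∀ j, z (Sum.inl j) ^ d b / eval (fun j => z (Sum.inl j)) (F b) ∈
        Subring.closure (Set.range (algebraMap k K) ∪ (T : Set K))) →
    ∃ s ∈ S, ∃ t : K, ∀ v, z v = t ^ wts e v * s v

/-- Every variety of dimension `w ≥ 1` with a generically finite proper map to
`X ∖ ⋃ {F b = 0}`, `b ∈ B`, is of log general type: the places `Q` of its function field `L` without
centre on it are those where some `F b`, `b ∈ B`, vanishes at the centre in `X`. -/
def CoversLogGeneral {K : Type} [Field K] (G : ι → MvPolynomial (Fin (n + 1) ⊕ W) K)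
    (F : A → MvPolynomial (Fin (n + 1)) K) (d : A → ℕ) (B : Set A) : Prop :=
  ∀ (L : Type) [Field L] [Algebra K L] (w : ℕ) (z : Fin (n + 1) ⊕ W → L) (c : Fin (n + 1)), 0 < w →
    Algebra.trdeg K L = w → z (Sum.inl c) = 1 → (∀ i, aeval z (G i) = 0) →
    (∀ b ∈ B, aeval (fun j => z (Sum.inl j)) (F b) ≠ 0) →
    Algebra.IsAlgebraic (IntermediateField.adjoin K (Set.range z)) L →
    LogGeneralType K L w fun Q : Place K L => ∃ b ∈ B,
      d b * pord Q (fun j => z (Sum.inl j)) < Q.ord (aeval (fun j => z (Sum.inl j)) (F b))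

end Pool.Agent.N126.RC
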