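import Pool.Agent.N126.RC.General
import Pool.Agent.N126.RC.Defs
import Pool.Agent.TH145.GL.Final

/-!
Finite coverings of arbitrary varieties, ramified over generic hypersurface sections.
-/

set_option autoImplicit false

open MvPolynomial FF Pool.Agent.W603.LV Pool.Agent.W603.PV Pool.Agent.W602.GT
open Pool.Agent.TH145.MG (DimLE)

namespace Pool.Agent.N126.RC

variable {k K : Type} [Field k] [Field K] [IsAlgClosed K] [CharZero K] [Algebra k K]
  {n m : ℕ} {A : Type} [Fintype A] [DecidableEq A] {d q : A → ℕ} {W ι : Type}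

omit [IsAlgClosed K] [CharZero K] [Fintype A] [DecidableEq A] in
theorem generic_closure {F : A → MvPolynomial (Fin (n + 1)) K} (hF : Generic k d F) :
    Generic (algebraicClosure k K) d F := by
  obtain ⟨h1, I0, h2, h3⟩ := hF
  exact ⟨h1, I0, h2, h3.algebraicClosure⟩

/-- The log version. -/
theorem log_main (V : Set (MvPolynomial (Fin (n + 1)) (algebraicClosure k K)))
    (hVh : ∀ f ∈ V, ∃ e, f.IsHomogeneous e) (hV : DimLE (algebraicClosure k K) V m)
    (F : A → MvPolynomial (Fin (n + 1)) K) (hF : Generic k d F) (C : Finset A)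
    (hd : (2 * m + 1 : ℚ) < ∑ a ∈ C, ((d a : ℚ) + 1) + ∑ a ∈ Cᶜ, (d a : ℚ) * (1 - 1 / q a))
    [Finite W] [Finite ι] (e : W → ℕ) (he : ∀ w, 0 < e w)
    (G : ι → MvPolynomial (Fin (n + 1) ⊕ W) K)
    (hGh : ∀ i, ∃ c, (G i).IsWeightedHomogeneous (wts e) c) (hfo : FiniteOver G)
    (hov : Over V F C G) (hram : ∀ a, a ∉ C → q a ≠ 0 → RamifiedOver G (F a) (q a)) :
    FiniteIntegral (algebraicClosure k K) e G F d {a | a ∉ C ∧ q a = 0} ∧
      CoversLogGeneral G F d {a | a ∉ C ∧ q a = 0} := by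
  have hac : IsAlgClosed (algebraicClosure k K) := (algebraicClosure.isAlgClosure k K).isAlgClosed
  have hF' := generic_closure hF
  refine ⟨fun T => ?_, ?_⟩
  · obtain ⟨S, hS⟩ := fin_cover C hd V hV hF' e he G hGh hfo hov hram T
    exact ⟨S, fun z hz hzG hzT hzi => hS z hz hzG hzT fun a ha hqa => hzi a ⟨ha, hqa⟩⟩
  · intro L _ _ w z c hw htr hc hz hbd halg
    have h1 := general_cover C hd V hVh hV hF' e G hGh hfo hov hram hw htr z c hc hz halg
      (fun a ha hqa => hbd a ⟨ha, hqa⟩)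
    have h2 : (fun Q : Place K L => ∃ a, a ∉ C ∧ q a = 0 ∧
        d a * pord Q (fun j => z (Sum.inl j)) < Q.ord (aeval (fun j => z (Sum.inl j)) (F a))) =
        fun Q : Place K L => ∃ b ∈ {a | a ∉ C ∧ q a = 0},
        d b * pord Q (fun j => z (Sum.inl j)) < Q.ord (aeval (fun j => z (Sum.inl j)) (F b)) := by
      funext Q
      refine propext ⟨?_, ?_⟩
      · rintro ⟨a, ha, hqa, h⟩
        exact ⟨a, ⟨ha, hqa⟩, h⟩
      · rintro ⟨a, ⟨ha, hqa⟩, h⟩
        exact ⟨a, ha, hqa, h⟩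
    rwa [h2] at h1

/-- The projective version. -/
theorem proj_main (V : Set (MvPolynomial (Fin (n + 1)) (algebraicClosure k K)))
    (hVh : ∀ f ∈ V, ∃ e, f.IsHomogeneous e) (hV : DimLE (algebraicClosure k K) V m)
    (F : A → MvPolynomial (Fin (n + 1)) K) (hF : Generic k d F) (C : Finset A)
    (hq : ∀ a, a ∉ C → q a ≠ 0)
    (hd : (2 * m + 1 : ℚ) < ∑ a ∈ C, ((d a : ℚ) + 1) + ∑ a ∈ Cᶜ, (d a : ℚ) * (1 - 1 / q a))
    [Finite W] [Finite ι] (e : W → ℕ) (he : ∀ w, 0 < e w)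
    (G : ι → MvPolynomial (Fin (n + 1) ⊕ W) K)
    (hGh : ∀ i, ∃ c, (G i).IsWeightedHomogeneous (wts e) c) (hfo : FiniteOver G)
    (hov : Over V F C G) (hram : ∀ a, a ∉ C → RamifiedOver G (F a) (q a)) :
    FinitePoints (algebraicClosure k K) e G ∧ CoversGeneral G := by
  obtain ⟨h1, h2⟩ := log_main V hVh hV F hF C hd e he G hGh hfo hov fun a ha _ => hram a ha
  refine ⟨fun T => ?_, ?_⟩
  · obtain ⟨S, hS⟩ := h1 T
    exact ⟨S, fun z hz hzG hzT => hS z hz hzG hzT fun b hb => absurd hb.2 (hq b hb.1)⟩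
  · intro L _ _ w z c hw htr hc hz halg
    have h3 := h2 L w z c hw htr hc hz (fun b hb => absurd hb.2 (hq b hb.1)) halg
    refine general_of_log ?_
    have h4 : (fun Q : Place K L => ∃ b ∈ {a | a ∉ C ∧ q a = 0},
        d b * pord Q (fun j => z (Sum.inl j)) < Q.ord (aeval (fun j => z (Sum.inl j)) (F b))) =
        fun _ => False := by
      funext Q
      refine eq_false ?_
      rintro ⟨a, ⟨ha, hqa⟩, -⟩
      exact hq a ha hqa
    rwa [h4] at h3

end Pool.Agent.N126.RC
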