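import Pool.Agent.N126.RC.GeneralW
import Pool.Agent.N126.RC.Curve
import Pool.Agent.N126.RC.DefsC
import Pool.Agent.N126.RC.Final

/-!
Finite coverings of arbitrary varieties, ramified over generic hypersurface sections: subvarieties and
curves.
-/

set_option autoImplicit false

open MvPolynomial FF Pool.Agent.W603.LV Pool.Agent.W603.PV Pool.Agent.W602.GT
open Pool.Agent.TH145.MG (DimLE)

namespace Pool.Agent.N126.RC

variable {k K : Type} [Field k] [Field K] [IsAlgClosed K] [CharZero K] [Algebra k K]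
  {n m : ℕ} {A : Type} [Fintype A] [DecidableEq A] {d q : A → ℕ} {W ι : Type}

/-- Varieties generically finite over the covering are of log general type. -/
theorem log_mainW (V : Set (MvPolynomial (Fin (n + 1)) (algebraicClosure k K)))
    (hVh : ∀ f ∈ V, ∃ e, f.IsHomogeneous e) (hV : DimLE (algebraicClosure k K) V m)
    (F : A → MvPolynomial (Fin (n + 1)) K) (hF : Generic k d F) (C : Finset A)
    (hd : (2 * m : ℚ) < ∑ a ∈ C, ((d a : ℚ) + 1) + ∑ a ∈ Cᶜ, (d a : ℚ) * (1 - 1 / q a))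
    [Finite W] (e : W → ℕ) (G : ι → MvPolynomial (Fin (n + 1) ⊕ W) K)
    (hGh : ∀ i, ∃ c, (G i).IsWeightedHomogeneous (wts e) c) (hfo : FiniteOver G)
    (hov : Over V F C G) (hram : ∀ a, a ∉ C → q a ≠ 0 → RamifiedOver G (F a) (q a)) :
    CoversLogGeneral G F d {a | a ∉ C ∧ q a = 0} := by
  intro L _ _ w z c hw htr hc hz hbd halg
  have h1 := general_coverW C hd V hVh hV (generic_closure hF) e G hGh hfo hov hram hw htr z c hc hz
    halg (fun a ha hqa => hbd a ⟨ha, hqa⟩)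
  have h2 : (fun Q : Place K L => ∃ a, a ∉ C ∧ q a = 0 ∧
      d a * pord Q (fun j => z (Sum.inl j)) < Q.ord (aeval (fun j => z (Sum.inl j)) (F a))) =
      fun Q : Place K L => ∃ b ∈ {a | a ∉ C ∧ q a = 0},
      d b * pord Q (fun j => z (Sum.inl j)) < Q.ord (aeval (fun j => z (Sum.inl j)) (F b)) := by
    funext Q
    refine propext ⟨?_, ?_⟩
    · rintro ⟨a, ha, hqa, h⟩
      exact ⟨a, ⟨ha, hqa⟩, h⟩
    · rintro ⟨a, ⟨ha, hqa⟩, h⟩
      exact ⟨a, ha, hqa, h⟩
  rwa [h2] at h1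

/-- Affine curves. -/
theorem curve_main (V : Set (MvPolynomial (Fin (n + 1)) (algebraicClosure k K)))
    (hVh : ∀ f ∈ V, ∃ e, f.IsHomogeneous e) (hV : DimLE (algebraicClosure k K) V m)
    (F : A → MvPolynomial (Fin (n + 1)) K) (hF : Generic k d F) (C : Finset A)
    [Finite W] (e : W → ℕ) (G : ι → MvPolynomial (Fin (n + 1) ⊕ W) K)
    (hGh : ∀ i, ∃ c, (G i).IsWeightedHomogeneous (wts e) c) (hfo : FiniteOver G)
    (hov : Over V F C G) (hram : ∀ a, a ∉ C → q a ≠ 0 → RamifiedOver G (F a) (q a)) :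
    AffineCurveBound G F d {a | a ∉ C ∧ q a = 0}
      (∑ a ∈ C, ((d a : ℚ) + 1) + ∑ a ∈ Cᶜ, (d a : ℚ) * (1 - 1 / q a) - 2 * m) := by
  intro L _ _ _ S z c hc hz hnc hbd
  exact curve_cover C V hVh hV (generic_closure hF) e G hGh hfo hov hram z c hc hz hnc S
    fun P hP a ha hqa => (hbd a ⟨ha, hqa⟩).2 P hP

/-- Projective curves. -/
theorem curve_proj (V : Set (MvPolynomial (Fin (n + 1)) (algebraicClosure k K)))
    (hVh : ∀ f ∈ V, ∃ e, f.IsHomogeneous e) (hV : DimLE (algebraicClosure k K) V m)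
    (F : A → MvPolynomial (Fin (n + 1)) K) (hF : Generic k d F) (C : Finset A)
    (hq : ∀ a, a ∉ C → q a ≠ 0)
    [Finite W] (e : W → ℕ) (G : ι → MvPolynomial (Fin (n + 1) ⊕ W) K)
    (hGh : ∀ i, ∃ c, (G i).IsWeightedHomogeneous (wts e) c) (hfo : FiniteOver G)
    (hov : Over V F C G) (hram : ∀ a, a ∉ C → RamifiedOver G (F a) (q a)) :
    CurveBound G
      (∑ a ∈ C, ((d a : ℚ) + 1) + ∑ a ∈ Cᶜ, (d a : ℚ) * (1 - 1 / q a) - 2 * m) := by
  intro L _ _ _ z c hc hz hnc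
  have h1 := curve_cover C V hVh hV (generic_closure hF) e G hGh hfo hov
    (fun a ha _ => hram a ha) z c hc hz hnc ∅ fun P _ a ha hqa => absurd hqa (hq a ha)
  simpa using h1

end Pool.Agent.N126.RC
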