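import Pool.Agent.N126.RC.CanB
import Pool.Agent.N126.RC.FinalW

/-!
Canonical degrees of curves on finite coverings ramified over generic hypersurface sections.
-/

set_option autoImplicit false

open MvPolynomial FF Pool.Agent.W603.LV Pool.Agent.W603.PV Pool.Agent.W602.GT
open Pool.Agent.TH145.MG (DimLE)

namespace Pool.Agent.N126.RC

theorem pht_nonneg' {K L : Type} [Field K] [Field L] [Algebra K L] [CharZero K] [IsFF K L]
    {n : ℕ} {x : Fin (n + 1) → L} {c : Fin (n + 1)} (hc : x c = 1) : 0 ≤ pht K x := by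
  have hxc0 : x c ≠ 0 := by rw [hc]; exact one_ne_zero
  unfold pht
  rw [← finsum_neg_distrib]
  refine finsum_nonneg fun P => ?_
  have := pord_le P (f := x) hxc0
  rw [hc, P.ord_one] at this
  omega

theorem ne_zero_of_one {L : Type} [Field L] {n : ℕ} {x : Fin (n + 1) → L} {c : Fin (n + 1)}
    (hc : x c = 1) : x ≠ 0 := fun h => by
  rw [h] at hc
  exact zero_ne_one hc

/-- The canonical degree is at most a multiple of the degree. -/
theorem exists_canonicalBound {K : Type} [Field K] [IsAlgClosed K] [CharZero K] {n : ℕ}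
    {W ι : Type} [Fintype W] [Finite ι] (e : W → ℕ) (G : ι → MvPolynomial (Fin (n + 1) ⊕ W) K)
    (hG : ∀ i, ∃ c, (G i).IsWeightedHomogeneous (wts e) c) (hfo : FiniteOver G) (w : ℕ) :
    ∃ κ : ℕ, CanonicalBound e G w κ := by
  classical
  have := Fintype.ofFinite ι
  choose c hc using hG
  refine ⟨∑ i, c i, ?_⟩
  intro L _ _ _ z c0 hz1 hz _ u hu
  obtain ⟨r, a, ha, -, h1⟩ := canX_le hc hfo z hz (ne_zero_of_one hz1) u hu
  have h2 : (0 : ℤ) ≤ pht K fun j => z (Sum.inl j) := pht_nonneg' (c := c0) hz1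
  have h3 : ∑ i, c (a i) ≤ ∑ i, c i := by
    rw [← Finset.sum_image (s := Finset.univ) (g := a) (f := c) fun i _ j _ h => ha h]
    exact Finset.sum_le_sum_of_subset (Finset.subset_univ _)
  have h4 : (∑ i, (c (a i) : ℤ) - ∑ s : Fin (n + 1) ⊕ W, (wts e s : ℤ)) ≤ ((∑ i, c i : ℕ) : ℤ) := by
    have h5 : (0 : ℤ) ≤ ∑ s : Fin (n + 1) ⊕ W, (wts e s : ℤ) :=
      Finset.sum_nonneg fun _ _ => by positivity
    have h6 : ∑ i, (c (a i) : ℤ) ≤ ((∑ i, c i : ℕ) : ℤ) := by exact_mod_cast h3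
    linarith
  have h5 := h1.trans (mul_le_mul_of_nonneg_right h4 h2)
  exact_mod_cast h5

variable {k K : Type} [Field k] [Field K] [IsAlgClosed K] [CharZero K] [Algebra k K]
  {n m : ℕ} {A : Type} [Fintype A] [DecidableEq A] {d q : A → ℕ} {W ι : Type}

/-- Canonical degrees and genera. -/
theorem canonical_genus (V : Set (MvPolynomial (Fin (n + 1)) (algebraicClosure k K)))
    (hVh : ∀ f ∈ V, ∃ e, f.IsHomogeneous e) (hV : DimLE (algebraicClosure k K) V m)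
    (F : A → MvPolynomial (Fin (n + 1)) K) (hF : Generic k d F) (C : Finset A)
    (hq : ∀ a, a ∉ C → q a ≠ 0)
    (hd : (2 * m : ℚ) < ∑ a ∈ C, ((d a : ℚ) + 1) + ∑ a ∈ Cᶜ, (d a : ℚ) * (1 - 1 / q a))
    [Fintype W] (e : W → ℕ) (G : ι → MvPolynomial (Fin (n + 1) ⊕ W) K)
    (hGh : ∀ i, ∃ c, (G i).IsWeightedHomogeneous (wts e) c) (hfo : FiniteOver G)
    (hov : Over V F C G) (hram : ∀ a, a ∉ C → RamifiedOver G (F a) (q a)) (w : ℕ) (κ : ℚ)
    (hκ0 : 0 ≤ κ) (hκ : CanonicalBound e G w κ) :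
    CanonicalGenusBound e G w
      (κ / (∑ a ∈ C, ((d a : ℚ) + 1) + ∑ a ∈ Cᶜ, (d a : ℚ) * (1 - 1 / q a) - 2 * m)) := by
  intro L _ _ _ z c hz1 hz hnc u hu
  have h1 := curve_proj V hVh hV F hF C hq e G hGh hfo hov hram L z c hz1 hz hnc
  have h2 := hκ L z c hz1 hz hnc u hu
  obtain ⟨δ, hδ⟩ : ∃ δ, δ = ∑ a ∈ C, ((d a : ℚ) + 1) + ∑ a ∈ Cᶜ, (d a : ℚ) * (1 - 1 / q a) -
    2 * m := ⟨_, rfl⟩
  have hδ0 : 0 < δ := by rw [hδ]; linarith
  rw [← hδ] at h1 ⊢
  refine h2.trans ?_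
  calc κ * (pht K (fun j => z (Sum.inl j)) : ℚ) = κ / δ * (δ * pht K fun j => z (Sum.inl j)) := by
        field_simp
    _ ≤ κ / δ * canDeg K L := mul_le_mul_of_nonneg_left h1 (by positivity)

end Pool.Agent.N126.RC
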