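import Pool.Agent.N126.RC.CanCI

/-!
Canonical degrees of curves on abelian coverings of generic complete intersections in arbitrary
varieties.
-/

set_option autoImplicit false

open MvPolynomial FF Pool.Agent.W603.LV Pool.Agent.W603.PV Pool.Agent.W602.GT
open Pool.Agent.TH145.MG (DimLE)

namespace Pool.Agent.N126.RC

/-- The equations `f i = 0`, `F a = 0`, `a ∈ C`, and `u_a ^ (q a) = F a`, `a ∉ C`. -/
noncomputable def fullEq {k K : Type} [Field k] [Field K] [Algebra k K] {n : ℕ} {A I : Type}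
    [DecidableEq A] (f : I → MvPolynomial (Fin (n + 1)) k) (F : A → MvPolynomial (Fin (n + 1)) K)
    (C : Finset A) (q : A → ℕ) : I ⊕ A → MvPolynomial (Fin (n + 1) ⊕ {a // a ∉ C}) K :=
  Sum.elim (fun i => rename Sum.inl (map (algebraMap k K) (f i))) (coverEq F C q)

section

variable {k K : Type} [Field k] [Field K] [Algebra k K] {n : ℕ} {A I : Type} [DecidableEq A]
  {d q : A → ℕ} {f : I → MvPolynomial (Fin (n + 1)) k} {v : I → ℕ}
  {F : A → MvPolynomial (Fin (n + 1)) K} {C : Finset A}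

theorem fullEq_whom (hf : ∀ i, (f i).IsHomogeneous (v i)) (hF : ∀ a, (F a).IsHomogeneous (d a))
    (hq : ∀ a, a ∉ C → q a ∣ d a) (j : I ⊕ A) :
    (fullEq f F C q j).IsWeightedHomogeneous (wts (coverWt d q C)) (Sum.elim v d j) := by
  rcases j with i | a
  · exact rename_whom _ ((hf i).map _)
  · exact coverEq_whom hF hq a

theorem span_coverEq_le : Ideal.span (Set.range (coverEq F C q)) ≤
    Ideal.span (Set.range (fullEq f F C q)) := by
  rw [Ideal.span_le]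
  rintro _ ⟨a, rfl⟩
  exact Ideal.subset_span ⟨Sum.inr a, rfl⟩

theorem fullEq_finite (hq : ∀ a, a ∉ C → q a ≠ 0) : FiniteOver (fullEq f F C q) := by
  intro w
  obtain ⟨p, hp, h⟩ := coverEq_finite (F := F) (C := C) hq w
  exact ⟨p, hp, span_coverEq_le h⟩

theorem fullEq_over : Over (Set.range f) F C (fullEq f F C q) := by
  intro z hz
  refine ⟨?_, fun a ha => ?_⟩
  · rintro _ ⟨i, rfl⟩
    have h1 := hz (Sum.inl i)
    change eval z (rename Sum.inl (map (algebraMap k K) (f i))) = 0 at h1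
    rw [eval_rename, eval_map] at h1
    exact h1
  · have h1 := hz (Sum.inr a)
    change eval z (coverEq F C q a) = 0 at h1
    unfold coverEq at h1
    rw [dif_pos ha, eval_rename] at h1
    exact h1

theorem fullEq_ramified (hq : ∀ a, a ∉ C → q a ≠ 0) (a : A) (ha : a ∉ C) :
    RamifiedOver (fullEq f F C q) (F a) (q a) := by
  obtain ⟨s, r, y, h1, h2⟩ := coverEq_ramified (F := F) (C := C) hq a ha
  refine ⟨s, r, y, fun i => ?_, fun z hz h j => h2 z (fun b => hz (Sum.inr b)) h j⟩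
  exact sup_le_sup le_rfl span_coverEq_le (h1 i)

end

variable {k K : Type} [Field k] [Field K] [IsAlgClosed K] [CharZero K] [Algebra k K]
  {n m : ℕ} {A I : Type} [Fintype A] [DecidableEq A] [Fintype I] {d q : A → ℕ}

/-- The canonical bundle of the covering. -/
theorem fullEq_canonical {k1 : Type} [Field k1] [Algebra k1 K]
    (f : I → MvPolynomial (Fin (n + 1)) k1) {v : I → ℕ}
    (hf : ∀ i, (f i).IsHomogeneous (v i)) (F : A → MvPolynomial (Fin (n + 1)) K)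
    (hF : ∀ a, (F a).IsHomogeneous (d a)) (C : Finset A) (hq0 : ∀ a, a ∉ C → q a ≠ 0)
    (hq : ∀ a, a ∉ C → q a ∣ d a) (w : ℕ) : CanonicalBound (coverWt d q C) (fullEq f F C q) w
      (∑ a ∈ C, (d a : ℚ) + ∑ a ∈ Cᶜ, (d a : ℚ) * (1 - 1 / q a) + ∑ i, (v i : ℚ) - n - 1) := by
  classical
  intro L _ _ _ z c0 hz1 hz _ u hu
  obtain ⟨r, a, ha, -, h1⟩ := canX_le (fullEq_whom hf hF hq) (fullEq_finite hq0) z hz
    (ne_zero_of_one hz1) u hu
  have h0 : (0 : ℤ) ≤ pht K fun j => z (Sum.inl j) := pht_nonneg' (c := c0) hz1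
  have h2 : ∑ i, Sum.elim v d (a i) ≤ ∑ i, v i + ∑ a, d a := by
    rw [← Finset.sum_image (s := Finset.univ) (g := a) (f := Sum.elim v d) fun i _ j _ h => ha h]
    refine (Finset.sum_le_sum_of_subset (Finset.subset_univ _)).trans (le_of_eq ?_)
    rw [Fintype.sum_sum_type]
    rfl
  have h3 : (∑ s : Fin (n + 1) ⊕ {a // a ∉ C}, (wts (coverWt d q C) s : ℤ)) =
      (n + 1) + ∑ a : {a // a ∉ C}, ((d a / q a : ℕ) : ℤ) := by
    rw [Fintype.sum_sum_type]
    simp only [wts, Sum.elim_inl, Sum.elim_inr, Nat.cast_one, Finset.sum_const, Finset.card_univ,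
      Fintype.card_fin, nsmul_eq_mul, mul_one]
    push_cast
    rfl
  rw [h3] at h1
  have h2' : ∑ i, ((Sum.elim v d (a i) : ℕ) : ℤ) ≤ ((∑ i, v i + ∑ a, d a : ℕ) : ℤ) := by
    exact_mod_cast h2
  have h8 := h1.trans (mul_le_mul_of_nonneg_right (sub_le_sub_right h2' _) h0)
  have h4 : ((canX K (coverWt d q C) z u : ℤ) : ℚ) ≤ (((∑ i, (v i : ℚ)) + ∑ a, (d a : ℚ)) -
      ((n + 1) + ∑ a : {a // a ∉ C}, ((d a / q a : ℕ) : ℚ))) *
        (pht K (fun j => z (Sum.inl j)) : ℤ) := by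
    exact_mod_cast h8
  have h5 : ∑ a : {a // a ∉ C}, ((d a / q a : ℕ) : ℚ) = ∑ a ∈ Cᶜ, (d a : ℚ) / q a := by
    rw [← Finset.sum_subtype (s := Cᶜ) (p := fun a => a ∉ C) (by simp)
      (fun a => ((d a / q a : ℕ) : ℚ))]
    refine Finset.sum_congr rfl fun a ha => ?_
    rw [Finset.mem_compl] at ha
    rw [Nat.cast_div (hq a ha) (by exact_mod_cast hq0 a ha)]
  have h6 : ∑ a ∈ Cᶜ, (d a : ℚ) * (1 - 1 / q a) = ∑ a ∈ Cᶜ, (d a : ℚ) -
      ∑ a ∈ Cᶜ, (d a : ℚ) / q a := by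
    rw [← Finset.sum_sub_distrib]
    exact Finset.sum_congr rfl fun a _ => by ring
  have h7 : ∑ a ∈ C, (d a : ℚ) + ∑ a ∈ Cᶜ, (d a : ℚ) = ∑ a, (d a : ℚ) :=
    Finset.sum_add_sum_compl C _
  rw [h5] at h4
  refine h4.trans (le_of_eq ?_)
  rw [h6, ← h7]
  ring

/-- Vojta's inequality for the abelian coverings of generic complete intersections in `V`. -/
theorem vojta_full (f : I → MvPolynomial (Fin (n + 1)) (algebraicClosure k K)) (v : I → ℕ)
    (hf : ∀ i, (f i).IsHomogeneous (v i)) (hV : DimLE (algebraicClosure k K) (Set.range f) m)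
    (F : A → MvPolynomial (Fin (n + 1)) K) (hF : Generic k d F)
    (C : Finset A) (hq0 : ∀ a, a ∉ C → q a ≠ 0) (hq : ∀ a, a ∉ C → q a ∣ d a) {S : ℚ}
    (hS : S = ∑ a ∈ C, (d a : ℚ) + ∑ a ∈ Cᶜ, (d a : ℚ) * (1 - 1 / q a))
    (hS1 : (2 * m : ℚ) < S + C.card) (hS2 : (n + 1 : ℚ) ≤ S + ∑ i, (v i : ℚ)) (w : ℕ) :
    CanonicalGenusBound (coverWt d q C) (fullEq f F C q) w
      ((S + ∑ i, (v i : ℚ) - n - 1) / (S + C.card - 2 * m)) ∧
    (S + ∑ i, (v i : ℚ) - n - 1 ≤ 2 * (S + C.card - 2 * m) →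
      CanonicalGenusBound (coverWt d q C) (fullEq f F C q) w 2) := by
  have h1 : ∑ a ∈ C, ((d a : ℚ) + 1) + ∑ a ∈ Cᶜ, (d a : ℚ) * (1 - 1 / q a) - 2 * m =
      S + C.card - 2 * m := by
    rw [Finset.sum_add_distrib, hS]
    simp
    ring
  have hκ := fullEq_canonical f hf F hF.1 C hq0 hq w
  rw [← hS] at hκ
  have hVh : ∀ g ∈ Set.range f, ∃ e, g.IsHomogeneous e := by
    rintro _ ⟨i, rfl⟩
    exact ⟨_, hf i⟩
  have h2 := canonical_genus (k := k) (Set.range f) hVh hV F hF C hq0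
    (by linarith) (coverWt d q C) (fullEq f F C q) (fun a => ⟨_, fullEq_whom hf hF.1 hq a⟩)
    (fullEq_finite hq0) fullEq_over (fullEq_ramified hq0) w _ (by linarith) hκ
  rw [h1] at h2
  refine ⟨h2, fun h3 => ?_⟩
  intro L _ _ _ z c hz1 hz hnc u hu
  have h4 := h2 L z c hz1 hz hnc u hu
  have h5 := curve_proj (k := k) (Set.range f) hVh hV F hF C hq0
    (coverWt d q C) (fullEq f F C q) (fun a => ⟨_, fullEq_whom hf hF.1 hq a⟩)
    (fullEq_finite hq0) fullEq_over (fullEq_ramified hq0) L z c hz1 hz hnc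
  have h6 : (0 : ℚ) ≤ pht K (fun j => z (Sum.inl j)) := by
    exact_mod_cast pht_nonneg' (K := K) (c := c) hz1
  rw [h1] at h5
  have h7 : (0 : ℚ) ≤ canDeg K L := le_trans (mul_nonneg (by linarith) h6) h5
  refine h4.trans (mul_le_mul_of_nonneg_right ?_ h7)
  rw [div_le_iff₀ (by linarith)]
  exact h3

end Pool.Agent.N126.RC
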