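import Pool.Agent.N126.RC.FinCover
import Pool.Agent.N126.RC.ORBw

/-!
Subvarieties of finite coverings ramified over generic hypersurfaces are of (log) general type: the
sharp numerical condition.
-/

set_option autoImplicit false

open MvPolynomial FF Pool.Agent.W603.LV Pool.Agent.W603.PV Pool.Agent.W602.GT Pool.Agent.TH145.GH
open Pool.Agent.TH145.MG (DimLE)
open Pool.Agent.TH145.GD (St deg_St)

namespace Pool.Agent.N126.RC

section numbers

variable {A : Type} [Fintype A] [DecidableEq A] {d q : A → ℕ} {C : Finset A}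

theorem num_condW {t : ℕ} (hd : (t : ℚ) < ∑ a ∈ C, ((d a : ℚ) + 1) +
      ∑ a ∈ Cᶜ, (d a : ℚ) * (1 - 1 / q a)) {N : ℕ} (hN : 0 < N)
    (hqN : ∀ a, a ∉ C → q a ≠ 0 → q a ∣ N) {C' : Finset A} (hC : C ⊆ C') :
    N * t + ∑ a ∈ C'ᶜ, N / q a * d a < N * (∑ a, d a + C'.card) := by
  have h0 : (0 : ℚ) < N := by exact_mod_cast hN
  have h1 : ∀ a ∈ C'ᶜ, (((N / q a * d a : ℕ)) : ℚ) = N * (d a * (1 / q a)) := by
    intro a ha
    have ha' : a ∉ C := fun h => Finset.mem_compl.1 ha (hC h)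
    by_cases hqa : q a = 0
    · rw [hqa]; simp
    · rw [Nat.cast_mul, Nat.cast_div_charZero (hqN a ha' hqa)]
      ring
  have h2 : ((∑ a ∈ C'ᶜ, N / q a * d a : ℕ) : ℚ) = N * ∑ a ∈ C'ᶜ, (d a : ℚ) * (1 / q a) := by
    rw [Nat.cast_sum, Finset.mul_sum]
    exact Finset.sum_congr rfl h1
  have h3 : ∑ a ∈ C'ᶜ, (d a : ℚ) * (1 / q a) ≤ ∑ a ∈ Cᶜ, (d a : ℚ) * (1 / q a) :=
    Finset.sum_le_sum_of_subset_of_nonneg (Finset.compl_subset_compl.2 hC)
      fun _ _ _ => by positivity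
  have h4 : ∑ a ∈ Cᶜ, (d a : ℚ) * (1 - 1 / q a) = ∑ a ∈ Cᶜ, (d a : ℚ) -
      ∑ a ∈ Cᶜ, (d a : ℚ) * (1 / q a) := by
    rw [← Finset.sum_sub_distrib]
    exact Finset.sum_congr rfl fun a _ => by ring
  have h5 : ∑ a ∈ C, ((d a : ℚ) + 1) = ∑ a ∈ C, (d a : ℚ) + C.card := by
    rw [Finset.sum_add_distrib]
    simp
  have h6 : ∑ a ∈ C, (d a : ℚ) + ∑ a ∈ Cᶜ, (d a : ℚ) = ∑ a, (d a : ℚ) :=
    Finset.sum_add_sum_compl C _
  have h7 : (C.card : ℚ) ≤ C'.card := by exact_mod_cast Finset.card_le_card hC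
  have h8 : (t : ℚ) + ∑ a ∈ C'ᶜ, (d a : ℚ) * (1 / q a) < ∑ a, (d a : ℚ) + C'.card := by
    rw [h4, h5] at hd
    linarith
  have h9 := mul_lt_mul_of_pos_left h8 h0
  rw [mul_add, ← h2] at h9
  exact_mod_cast h9

end numbers

/-- Varieties with a generically finite map to the covering are of log general type. -/
theorem general_coverW {k0 K : Type} [Field k0] [Field K] [Algebra k0 K] [IsAlgClosed K]
    [CharZero K] {n m : ℕ} {A : Type} {d q : A → ℕ} [Fintype A] [DecidableEq A]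
    (C : Finset A)
    (hd : (2 * m : ℚ) < ∑ a ∈ C, ((d a : ℚ) + 1) + ∑ a ∈ Cᶜ, (d a : ℚ) * (1 - 1 / q a))
    (V : Set (MvPolynomial (Fin (n + 1)) k0)) (hVh : ∀ f ∈ V, ∃ e, f.IsHomogeneous e)
    (hV : DimLE k0 V m) {F : A → MvPolynomial (Fin (n + 1)) K} (hF : Generic k0 d F)
    {W ι : Type} [Finite W] (e : W → ℕ)
    (G : ι → MvPolynomial (Fin (n + 1) ⊕ W) K)
    (hGh : ∀ i, ∃ c, (G i).IsWeightedHomogeneous (wts e) c) (hfo : FiniteOver G)
    (hov : Over V F C G) (hram : ∀ a, a ∉ C → q a ≠ 0 → RamifiedOver G (F a) (q a))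
    {L : Type} [Field L] [Algebra K L] {w : ℕ} (hw : 0 < w) (htr : Algebra.trdeg K L = w)
    (z : Fin (n + 1) ⊕ W → L) (c : Fin (n + 1)) (hc : z (Sum.inl c) = 1)
    (hz : ∀ i, aeval z (G i) = 0)
    (halg : Algebra.IsAlgebraic (IntermediateField.adjoin K (Set.range z)) L)
    (hbd : ∀ a, a ∉ C → q a = 0 → aeval (fun j => z (Sum.inl j)) (F a) ≠ 0) :
    LogGeneralType K L w fun Q : Place K L => ∃ a, a ∉ C ∧ q a = 0 ∧
      d a * pord Q (fun j => z (Sum.inl j)) < Q.ord (aeval (fun j => z (Sum.inl j)) (F a)) := by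
  classical
  obtain ⟨N, hN0, hqN⟩ := exists_N C q
  have hFh := hF.1
  obtain ⟨hft, P, cf, j0, hP, hSt, h0, hind, hFP⟩ := full_systems hF
  obtain ⟨x, hx⟩ : ∃ x : Fin (n + 1) → L, x = fun j => z (Sum.inl j) := ⟨_, rfl⟩
  rw [← hx] at hbd
  have hxc : x c = 1 := by rw [hx]; exact hc
  have hxc0 : x c ≠ 0 := by rw [hxc]; exact one_ne_zero
  have hx0 : x ≠ 0 := fun h => hxc0 (by rw [h]; rfl)
  have hren : ∀ g : MvPolynomial (Fin (n + 1)) K,
      aeval z (rename (Sum.inl : Fin (n + 1) → Fin (n + 1) ⊕ W) g) = aeval x g := by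
    intro g
    rw [aeval_rename, hx]
    rfl
  have hrenK : ∀ (g : MvPolynomial (Fin (n + 1)) K) (y : Fin (n + 1) ⊕ W → K),
      eval y (rename (Sum.inl : Fin (n + 1) → Fin (n + 1) ⊕ W) g) =
        eval (fun j => y (Sum.inl j)) g := by
    intro g y
    rw [eval_rename]
    rfl
  have hxV : ∀ f ∈ V, aeval x (map (algebraMap k0 K) f) = 0 := by
    intro f hf
    rw [← hren]
    refine ns_point G _ (fun y hy => ?_) z hz
    rw [hrenK, eval_map]
    exact (hov y hy).1 f hf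
  have hxC : ∀ a ∈ C, aeval x (F a) = 0 := by
    intro a ha
    rw [← hren]
    refine ns_point G _ (fun y hy => ?_) z hz
    rw [hrenK]
    exact (hov y hy).2 a ha
  obtain ⟨C', hC'⟩ : ∃ C' : Finset A, ∀ a, a ∈ C' ↔ aeval x (F a) = 0 :=
    ⟨Finset.univ.filter fun a => aeval x (F a) = 0, fun a => by simp⟩
  have hsub : C ⊆ C' := fun a ha => (hC' a).2 (hxC a ha)
  have hCn : ∀ a, a ∉ C' → a ∉ C := fun a ha h => ha (hsub h)
  have hzs : Sum.elim x (fun w => z (Sum.inr w)) = z := by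
    rw [hx]
    funext v
    rcases v with j | w <;> rfl
  have h1 := Pool.Agent.N126.RC.ORBw.orb_general V hVh hV P hP cf j0 h0 hind c (hSt c) hFP C' q N hN0
    (fun a ha => hqN a (hCn a ha)) hw (by
      have h5 := num_condW (t := 2 * m) (by push_cast; exact hd) hN0 hqN hsub
      have h6 : ∀ S : Finset A, (∀ a, a ∈ S ↔ a ∉ C') → N * (2 * m + 1) +
          ∑ a ∈ S, N / q a * d a < N * (∑ a, d a + C'.card + w) := by
        intro S hS
        have h7 : S = C'ᶜ := by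
          ext a
          rw [hS, Finset.mem_compl]
        have h8 := Nat.mul_le_mul_left N hw
        rw [h7, Nat.mul_add N _ w, Nat.mul_add N (2 * m) 1]
        linarith
      exact h6 _ fun a => by simp) htr x hxc0 (by
      rw [hx]
      exact alg_coords hfo z c hc hz halg) hxV (fun a ha => (hC' a).1 ha)
    (fun a ha h => ha ((hC' a).2 h)) (fun Q a ha hqa hlt => by
      obtain ⟨T, hT⟩ := Pool.Agent.N617.RC.main_MULT K n W ι e G (F a) (d a) (q a) hGh (hFh a) hfo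
        (Pool.Agent.N263.RC.main_NS K n W ι G (F a) (q a) (hram a (hCn a ha) hqa))
      obtain ⟨S0, hS0⟩ := hT K (RingHom.id K) (fun t _ => ⟨t, rfl⟩) G (F a)
        (fun i => map_id _) (map_id _)
      exact hS0 K L Q (algebraMap K L) (fun s _ => Ge.const s) x (fun w => z (Sum.inr w)) hx0
        (fun i => by rw [hzs]; exact hz i) (fun h => ha ((hC' a).2 h)) hlt)
  have h2 : (fun Q : Place K L => ∃ a, a ∉ C' ∧ q a = 0 ∧
      d a * pord Q x < Q.ord (aeval x (F a))) = fun Q : Place K L => ∃ a, a ∉ C ∧ q a = 0 ∧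
      d a * pord Q x < Q.ord (aeval x (F a)) := by
    funext Q
    refine propext ⟨?_, ?_⟩
    · rintro ⟨a, ha, hqa, h⟩
      exact ⟨a, hCn a ha, hqa, h⟩
    · rintro ⟨a, ha, hqa, h⟩
      exact ⟨a, fun h' => hbd a ha hqa ((hC' a).1 h'), hqa, h⟩
  rw [← hx]
  rwa [h2] at h1

end Pool.Agent.N126.RC
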