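import Pool.Agent.W603.PV.Hgt
import Pool.Agent.W603.LV.Hgt

/-!
Finite coverings ramified over hypersurfaces: definitions, and statements of the independent parts.
-/

set_option autoImplicit false

open FF MvPolynomial Pool.Agent.W603.LV Pool.Agent.W603.PV

namespace Pool.Agent.N126.RC

variable {n : ℕ} {W ι : Type}

/-- The weights: the coordinates `x i` have weight `1`, the coordinates `u w` have weight `e w`. -/
def wts (e : W → ℕ) : Fin (n + 1) ⊕ W → ℕ := Sum.elim (fun _ => 1) e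

/-- The homogeneous coordinate ring `K[x, u] / (G)` is integral over `K[x]`: the projection
`(x, u) ↦ x` of the projective variety `X = {G = 0}` is a finite morphism. -/
def FiniteOver {K : Type} [Field K] (G : ι → MvPolynomial (Fin (n + 1) ⊕ W) K) : Prop :=
  ∀ w : W, ∃ p : Polynomial (MvPolynomial (Fin (n + 1)) K), p.Monic ∧
    p.eval₂ (rename Sum.inl).toRingHom (X (Sum.inr w)) ∈ Ideal.span (Set.range G)

/-- The projection of `X = {G = 0}` is ramified of order at least `q` over the hypersurface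
`F = 0`: the function `F` is, locally, in the `q`-th power of an ideal with the same zeros in `X`. -/
def RamifiedOver {K : Type} [Field K] (G : ι → MvPolynomial (Fin (n + 1) ⊕ W) K)
    (F : MvPolynomial (Fin (n + 1)) K) (q : ℕ) : Prop :=
  ∃ (s r : ℕ) (v : Fin s → MvPolynomial (Fin (n + 1) ⊕ W) K),
    (∀ i, X (Sum.inl i) ^ r * rename Sum.inl F ∈
      Ideal.span (Set.range v) ^ q ⊔ Ideal.span (Set.range G)) ∧
    ∀ z : Fin (n + 1) ⊕ W → K, (∀ i, eval z (G i) = 0) → eval z (rename Sum.inl F) = 0 →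
      ∀ j, eval z (v j) = 0

/-- The algebraic form of `RamifiedOver`. -/
def Ram {K : Type} [Field K] (G : ι → MvPolynomial (Fin (n + 1) ⊕ W) K)
    (F : MvPolynomial (Fin (n + 1)) K) (q : ℕ) : Prop :=
  ∃ (s r N : ℕ) (v : Fin s → MvPolynomial (Fin (n + 1) ⊕ W) K),
    (∀ i, X (Sum.inl i) ^ r * rename Sum.inl F ∈
      Ideal.span (Set.range v) ^ q ⊔ Ideal.span (Set.range G)) ∧
    ∀ j, v j ^ N ∈ Ideal.span {rename Sum.inl F} ⊔ Ideal.span (Set.range G)

/-- At all places where the elements of `S0` are integral, the points of `X` meet the hypersurface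
`F = 0`, if at all, with multiplicity at least `q`. -/
def Mult {E : Type} [Field E] (S0 : Finset E) (G : ι → MvPolynomial (Fin (n + 1) ⊕ W) E)
    (F : MvPolynomial (Fin (n + 1)) E) (d q : ℕ) : Prop :=
  ∀ (κ L : Type) [Field κ] [Field L] [Algebra κ L] (P : Place κ L) (φ : E →+* L),
    (∀ s ∈ S0, Ge P 0 (φ s)) → ∀ (x : Fin (n + 1) → L) (u : W → L), x ≠ 0 →
    (∀ i, eval₂ φ (Sum.elim x u) (G i) = 0) → eval₂ φ x F ≠ 0 →
    d * pord P x < P.ord (eval₂ φ x F) → d * pord P x + q ≤ P.ord (eval₂ φ x F)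

/-- The heights of the coordinates `u` are bounded in terms of the heights of the `x`. -/
def Bnd {E : Type} [Field E] (G : ι → MvPolynomial (Fin (n + 1) ⊕ W) E) : Prop :=
  ∀ (κ L : Type) [Field κ] [Field L] [Algebra κ L] [IsAlgClosed κ] [CharZero κ] [IsFF κ L]
    (φ : E →+* L) (B : ℤ), ∃ B' : ℤ, ∀ (x : Fin (n + 1) → L) (u : W → L),
    (∀ i, eval₂ φ (Sum.elim x u) (G i) = 0) → (∀ j, hgt κ (x j) ≤ B) → ∀ w, hgt κ (u w) ≤ B'

/-- NS: the Nullstellensatz. -/
def S_NS : Prop := ∀ (K : Type) [Field K] [IsAlgClosed K] (n : ℕ) (W ι : Type) [Finite W]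
    (G : ι → MvPolynomial (Fin (n + 1) ⊕ W) K) (F : MvPolynomial (Fin (n + 1)) K) (q : ℕ),
    RamifiedOver G F q → Ram G F q

/-- MULT: the multiplicities at the places, over all fields which contain the coefficients of
finitely many polynomials. -/
def S_MULT : Prop := ∀ (K : Type) [Field K] (n : ℕ) (W ι : Type) [Finite W] (e : W → ℕ)
    (G : ι → MvPolynomial (Fin (n + 1) ⊕ W) K) (F : MvPolynomial (Fin (n + 1)) K) (d q : ℕ),
    (∀ i, ∃ c, (G i).IsWeightedHomogeneous (wts e) c) → F.IsHomogeneous d → FiniteOver G →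
    Ram G F q → ∃ T : Finset K, ∀ (E : Type) [Field E] (ψ : E →+* K), (∀ t ∈ T, t ∈ ψ.range) →
      ∀ (G' : ι → MvPolynomial (Fin (n + 1) ⊕ W) E) (F' : MvPolynomial (Fin (n + 1)) E),
        (∀ i, map ψ (G' i) = G i) → map ψ F' = F → ∃ S0 : Finset E, Mult S0 G' F' d q

/-- BND: the heights of the coordinates `u`. -/
def S_BND : Prop := ∀ (K : Type) [Field K] (n : ℕ) (W ι : Type) [Finite W]
    (G : ι → MvPolynomial (Fin (n + 1) ⊕ W) K), FiniteOver G →
    ∃ T : Finset K, ∀ (E : Type) [Field E] (ψ : E →+* K), (∀ t ∈ T, t ∈ ψ.range) →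
      ∀ G' : ι → MvPolynomial (Fin (n + 1) ⊕ W) E, (∀ i, map ψ (G' i) = G i) → Bnd G'

/-- MAP: extension of the field, and multiplication of the form by a constant. -/
def S_MAP : Prop := ∀ (K K' : Type) [Field K] [Field K'] (φ : K →+* K') (n : ℕ) (W ι : Type)
    (G : ι → MvPolynomial (Fin (n + 1) ⊕ W) K) (F : MvPolynomial (Fin (n + 1)) K) (q : ℕ) (c : K'),
    c ≠ 0 → (Ram G F q → Ram (fun i => map φ (G i)) (C c * map φ F) q) ∧
      (FiniteOver G → FiniteOver fun i => map φ (G i))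

end Pool.Agent.N126.RC
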