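import Pool.Agent.TH145.GH.FinA
import Pool.Agent.TH145.MG.Unb
import Pool.Agent.N126.RC.Stm

/-!
Evaluation at sequences, weighted homogeneous polynomials.
-/

set_option autoImplicit false

open MvPolynomial FF Pool.Agent.W603.LV Pool.Agent.W603.PV Pool.Agent.W602.RG
open Pool.Agent.TH145.GH

namespace Pool.Agent.N126.RC

theorem eval_mk_sum' {σ L : Type} [Field L] (g : ℕ → σ → L) (f : MvPolynomial σ L) :
    MvPolynomial.eval₂ (cst L) (fun i => Om.mk fun m => g m i) f =
      Om.mk fun m => MvPolynomial.eval (g m) f := by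
  have h1 : MvPolynomial.eval₂Hom (cst L) (fun i => Om.mk fun m => g m i) =
      (Pool.Agent.TH145.MF.mkHom L).comp
        (RingHom.pi fun m => (MvPolynomial.eval (g m) : MvPolynomial σ L →+* L)) := by
    apply MvPolynomial.ringHom_ext
    · intro r
      rw [MvPolynomial.eval₂Hom_C, RingHom.comp_apply, Pool.Agent.TH145.MF.mkHom_apply, cst_apply]
      congr 1
      funext m
      exact (MvPolynomial.eval_C r).symm
    · intro i
      rw [MvPolynomial.eval₂Hom_X', RingHom.comp_apply, Pool.Agent.TH145.MF.mkHom_apply]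
      congr 1
      funext m
      exact (MvPolynomial.eval_X i).symm
  have h2 := congrArg (fun φ : MvPolynomial σ L →+* Om L => φ f) h1
  exact h2

theorem eval_mk_sum {K : Type} [Field K] {σ : Type} {E : Subfield K} (F : MvPolynomial σ E)
    (x : ℕ → σ → K) :
    eval (fun j => Om.mk fun m => x m j) (map ((cst K).comp E.subtype) F) =
      Om.mk fun m => eval (x m) (map E.subtype F) := by
  rw [← map_map, eval_map, eval_mk_sum']

/-- Scaling. -/
theorem eval_scale {K σ : Type} [Field K] {w : σ → ℕ} {d : ℕ} {G : MvPolynomial σ K}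
    (hG : G.IsWeightedHomogeneous w d) (t : K) (x : σ → K) :
    eval (fun j => t ^ w j * x j) G = t ^ d * eval x G := by
  classical
  rw [eval_eq, eval_eq, Finset.mul_sum]
  refine Finset.sum_congr rfl fun u hu => ?_
  have h1 : Finsupp.weight w u = d := hG (mem_support_iff.1 hu)
  have h2 : ∏ i ∈ u.support, (t ^ w i * x i) ^ u i =
      t ^ d * ∏ i ∈ u.support, x i ^ u i := by
    rw [← h1, Finsupp.weight_apply, Finsupp.sum, ← Finset.prod_pow_eq_pow_sum,
      ← Finset.prod_mul_distrib]
    refine Finset.prod_congr rfl fun i _ => ?_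
    rw [mul_pow, ← pow_mul, smul_eq_mul, mul_comm (w i)]
  rw [h2]
  ring

theorem wh_map {K K' σ : Type} [Field K] [Field K'] (φ : K →+* K') {w : σ → ℕ} {d : ℕ}
    {G : MvPolynomial σ K} (hG : G.IsWeightedHomogeneous w d) :
    (map φ G).IsWeightedHomogeneous w d := by
  intro u hu
  apply hG
  intro h0
  apply hu
  rw [coeff_map, h0, map_zero]

/-- Homogeneous polynomials in the coordinates `x` are weighted homogeneous. -/
theorem wh_rename {n : ℕ} {W K : Type} [Field K] (e : W → ℕ) {d : ℕ}
    {F : MvPolynomial (Fin (n + 1)) K} (hF : F.IsHomogeneous d) :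
    (rename (Sum.inl : Fin (n + 1) → Fin (n + 1) ⊕ W) F).IsWeightedHomogeneous (wts e) d := by
  classical
  intro u hu
  obtain ⟨v, rfl, hv⟩ := coeff_rename_ne_zero _ _ _ hu
  have h1 := hF hv
  rw [Finsupp.weight_apply, Finsupp.sum_mapDomain_index
    (h := fun (i : Fin (n + 1) ⊕ W) (c : ℕ) => c • wts e i) (fun _ => zero_smul _ _)
    (fun _ _ _ => add_smul _ _ _)]
  rw [← h1, Finsupp.weight_apply]
  rfl

end Pool.Agent.N126.RC
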