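import Pool.Agent.TH145.GK.Limit
import Pool.Agent.N126.RC.Pre

/-!
Limit points are constant (coverings with ramification conditions).
-/

set_option autoImplicit false

open MvPolynomial FF Pool.Agent.W603.LV Pool.Agent.W603.PV Pool.Agent.W602.RG
open Pool.Agent.TH145.GH
open Pool.Agent.TH145.GD (Data St deg_St Full)
open Pool.Agent.TH145.GK (Gen exists_rig_data rank_le ord_ge)

namespace Pool.Agent.N126.RC

/-- The condition at a place. -/
theorem pow_cond' {N q : ℕ} (hq0 : q ≠ 0) (hq : q ∣ N) {v r g : ℤ} (hv : -g ≤ v) (hg : 0 ≤ g)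
    (hr : 0 ≤ r) (hm : g = 0 → 0 < v → (q : ℤ) ≤ v) :
    (N : ℤ) * (if 0 < v then r else 0) ≤
      (N / q : ℕ) * v + if g = 0 ∧ r ≤ 1 then 0 else N * (r + g) := by
  obtain ⟨c, rfl⟩ := hq
  rw [Nat.mul_div_cancel_left c (Nat.pos_of_ne_zero hq0)]
  have hq1 : (1 : ℤ) ≤ q := by exact_mod_cast Nat.pos_of_ne_zero hq0
  have hc0 : (0 : ℤ) ≤ c := Int.natCast_nonneg c
  push_cast
  by_cases hpos : 0 < v
  · rw [if_pos hpos]
    split_ifs with hcase
    · have h1 := hm hcase.1 hpos
      have h2 : (q : ℤ) * c * r ≤ q * c * 1 :=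
        mul_le_mul_of_nonneg_left hcase.2 (by positivity)
      have h3 : (c : ℤ) * q ≤ c * v := mul_le_mul_of_nonneg_left h1 hc0
      have h4 : (q : ℤ) * c * 1 = c * q := by ring
      linarith
    · have h2 : (0 : ℤ) ≤ c * v := mul_nonneg hc0 hpos.le
      have h3 : (0 : ℤ) ≤ q * c * g := by positivity
      have h4 : (q : ℤ) * c * (r + g) = q * c * r + q * c * g := by ring
      linarith
  · rw [if_neg hpos, mul_zero]
    split_ifs with hcase
    · obtain ⟨rfl, -⟩ := hcase
      have h2 : v = 0 := by omega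
      rw [h2]
      simp
    · have h2 : (c : ℤ) * (-g) ≤ c * v := mul_le_mul_of_nonneg_left hv hc0
      have h3 : (c : ℤ) * g ≤ q * c * g := by
        have h5 : 1 * ((c : ℤ) * g) ≤ q * (c * g) :=
          mul_le_mul_of_nonneg_right hq1 (mul_nonneg hc0 hg)
        linarith
      have h4 : (q : ℤ) * c * (r + g) = q * c * r + q * c * g := by ring
      have h5 : (0 : ℤ) ≤ q * c * r := by positivity
      linarith

variable {k0 K : Type} [Field k0] [Field K] [Algebra k0 K] [IsAlgClosed k0] [IsAlgClosed K]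
  [CharZero K] {W ι : Type} [Finite W]

open scoped Classical in
/-- Limit points are constant. -/
theorem limit {n m N : ℕ} {A : Type} [Fintype A] {c0 : Fin (n + 1)} {dg q : A → ℕ} (E : Subfield K)
    (hE : ∀ r : k0, algebraMap k0 K r ∈ E)
    {F : A → MvPolynomial (Fin (n + 1)) E} {DE : A → (Fin (n + 1) →₀ ℕ) → E → E}
    (hG : Gen c0 F dg DE)
    (D : A → (Fin (n + 1) →₀ ℕ) → Derivation ℤ K K)
    (hDE : ∀ a I (x : E), D a I x = (DE a I x : K))
    (hDk : ∀ a I (r : k0), D a I (algebraMap k0 K r) = 0) (C : Finset A)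
    (hd : N * (2 * m + 1) + ∑ a ∈ Finset.univ.filter (fun a => a ∉ C), N / q a * dg a <
      N * (∑ a, dg a + C.card))
    (hq : ∀ a, a ∉ C → q a ≠ 0 → q a ∣ N)
    (G' : ι → MvPolynomial (Fin (n + 1) ⊕ W) E)
    (hM : ∀ a, a ∉ C → q a ≠ 0 → ∃ S0 : Finset E, Mult S0 G' (F a) (dg a) (q a))
    (V : Set (MvPolynomial (Fin (n + 1)) k0))
    (hV : Pool.Agent.TH145.MG.DimLE k0 V m)
    (z : Fin (n + 1) → Om K) (hz : ∀ j, z j ∈ OE k0 (E : Set K))
    (y : W → Om K) (hy : ∀ a, y a ∈ OE k0 (E : Set K))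
    (hl0 : z c0 = 1) (hzV : ∀ f ∈ V, eval₂ ((cst K).comp (algebraMap k0 K)) z f = 0)
    (hzC : ∀ a ∈ C, eval z (map ((cst K).comp E.subtype) (F a)) = 0)
    (hzn : ∀ a, a ∉ C → eval z (map ((cst K).comp E.subtype) (F a)) ≠ 0)
    (hzG : ∀ i, eval (Sum.elim z y) (map ((cst K).comp E.subtype) (G' i)) = 0)
    (hint : ∀ a, a ∉ C → q a = 0 → ∀ j,
      z j ^ dg a / eval z (map ((cst K).comp E.subtype) (F a)) ∈
      Subring.closure (Set.range (mapOm k0 K) ∪ cst K '' (E : Set K))) (j : Fin (n + 1)) :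
    z j ∈ acl (cst K '' (E : Set K)) := by
  classical
  by_contra hj1
  have h0 : ∀ (a : A) (j : Fin (n + 1)), ∃ c : Finset (Om K),
      (c : Set (Om K)) ⊆ Set.range (mapOm k0 K) ∧ (a ∉ C → q a = 0 →
      z j ^ dg a / eval z (map ((cst K).comp E.subtype) (F a)) ∈
        Subring.closure ((c : Set (Om K)) ∪ cst K '' (E : Set K))) := fun a j => by
    by_cases ha : a ∈ C
    · exact ⟨∅, by simp, fun h => absurd ha h⟩
    · by_cases hqa : q a = 0
      · obtain ⟨c, hc, h⟩ := fin_closure_ring (hint a ha hqa j)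
        exact ⟨c, hc, fun _ _ => h⟩
      · exact ⟨∅, by simp, fun _ h => absurd h hqa⟩
  choose c hc hcz' using h0
  obtain ⟨X, hX⟩ : ∃ X : Finset (Om K), X = Finset.univ.biUnion fun p : A × Fin (n + 1) =>
    c p.1 p.2 := ⟨_, rfl⟩
  obtain ⟨κ, Λ, M, φ, D', hac, hFF, hzΛ', hzκ', hXM, hEκ, hφ, hdat, hdich, hDk'⟩ :=
    exists_rig_data E hE hG D hDE hDk (J := Fin (n + 1) ⊕ W) (Sum.elim z y) (by
      rintro (j | a)
      · exact hz j
      · exact hy a) X (by
      intro w hw
      rw [hX, Finset.mem_coe, Finset.mem_biUnion] at hw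
      obtain ⟨p, -, hw⟩ := hw
      obtain ⟨u, hu⟩ := hc _ _ hw
      exact ⟨u, hu⟩) (Sum.inl j) hj1
  have hzΛ : ∀ j, z j ∈ Λ := fun j => hzΛ' (Sum.inl j)
  have hyΛ : ∀ a, y a ∈ Λ := fun a => hzΛ' (Sum.inr a)
  have hzκ : z j ∉ κ := hzκ'
  have hczOm : CharZero (Om K) :=
    charZero_of_injective_algebraMap (algebraMap K (Om K)).injective
  have hcz : CharZero κ := charZero_of_injective_algebraMap (algebraMap ℚ κ).injective
  have hczΛ : CharZero Λ := charZero_of_injective_algebraMap (algebraMap κ Λ).injective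
  obtain ⟨x, hx⟩ : ∃ x : Fin (n + 1) → Λ, ∀ j, x j = ⟨z j, hzΛ j⟩ := ⟨_, fun _ => rfl⟩
  obtain ⟨y', hy'⟩ : ∃ y' : W → Λ, ∀ a, y' a = ⟨y a, hyΛ a⟩ := ⟨_, fun _ => rfl⟩
  have hxz : (fun j => ((x j : Λ) : Om K)) = z := by
    funext j
    rw [hx]
  have hxl0 : x c0 = 1 := by
    rw [hx]
    exact Subtype.ext hl0
  have hx0 : x ≠ 0 := by
    intro h0
    rw [h0] at hxl0
    exact zero_ne_one hxl0
  have hxc0 : x c0 ≠ 0 := by rw [hxl0]; exact one_ne_zero
  have hev : ∀ a, ((eval x (map φ (F a)) : Λ) : Om K) =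
      eval z (map ((cst K).comp E.subtype) (F a)) := fun a => by
    rw [eval_lift φ hφ (F a) x, hxz]
  have hxC : ∀ a ∈ C, eval x (map φ (F a)) = 0 := fun a ha => by
    apply Subtype.ext
    rw [hev, hzC a ha]
    rfl
  have hxF : ∀ a, a ∉ C → eval x (map φ (F a)) ≠ 0 := by
    intro a ha h0
    have h1 := hev a
    rw [h0] at h1
    exact hzn a ha h1.symm
  have hxG : ∀ i, eval₂ φ (Sum.elim x y') (G' i) = 0 := fun i => by
    apply Subtype.ext
    have h1 := hom_eval₂ (G' i) φ (algebraMap Λ (Om K)) (Sum.elim x y')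
    refine h1.trans ?_
    have h2 : (algebraMap Λ (Om K)).comp φ = (cst K).comp E.subtype := by
      ext r
      exact hφ r
    have h3 : (fun j => algebraMap Λ (Om K) (Sum.elim x y' j)) = Sum.elim z y := by
      funext j
      rcases j with j | a
      · exact congrFun hxz j
      · change ((y' a : Λ) : Om K) = y a
        rw [hy']
    rw [h2, h3, ← eval_map]
    exact hzG i
  -- the dimension
  have hrk : Module.finrank Λ (Full c0 dg D' x) ≤ m + 1 := by
    let ψ : k0 →+* E := (algebraMap k0 K).codRestrict E hE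
    let _ : Algebra k0 Λ := (φ.comp ψ).toAlgebra
    refine rank_le (k0 := k0) (fun a I r => hDk' a I r) hxl0 ?_
    refine hV Λ x hx0 fun f hf => ?_
    apply Subtype.ext
    have h1 := hom_eval₂ f (φ.comp ψ) (algebraMap Λ (Om K)) x
    refine h1.trans ?_
    have h2 : (algebraMap Λ (Om K)).comp (φ.comp ψ) = (cst K).comp (algebraMap k0 K) := by
      ext r
      exact hφ (ψ r)
    rw [h2]
    have h3 : (fun i => algebraMap Λ (Om K) (x i)) = z := hxz
    rw [h3]
    exact hzV f hf
  -- the orders of the values of the forms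
  have hcf : ∀ (P : Place κ Λ) a u, Ge P 0 ((map φ (F a)).coeff u) := by
    intro P a u
    rw [coeff_map]
    have h2 : φ ((F a).coeff u) =
        algebraMap κ Λ ⟨cst K (((F a).coeff u : E) : K), hEκ _ ((F a).coeff u).2⟩ :=
      Subtype.ext (hφ _)
    rw [h2]
    exact Ge.const _
  have hv0 : ∀ (P : Place κ Λ) a, a ∉ C → 0 ≤ P.ord (eval x (map φ (F a))) - dg a * pord P x := by
    intro P a ha
    have h2 := ord_ge P (hdat.hom a) (g := 0) (by rw [neg_zero]; exact hcf P a) hx0 (hxF a ha)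
    omega
  have hvq : ∀ (P : Place κ Λ) a, a ∉ C → q a ≠ 0 →
      0 < P.ord (eval x (map φ (F a))) - dg a * pord P x →
      (q a : ℤ) ≤ P.ord (eval x (map φ (F a))) - dg a * pord P x := by
    intro P a ha hqa hlt
    obtain ⟨S0, hS0⟩ := hM a ha hqa
    have h2 := hS0 κ Λ P φ (fun s _ => by
      have h3 : φ s = algebraMap κ Λ ⟨cst K (s : K), hEκ _ s.2⟩ := Subtype.ext (hφ _)
      rw [h3]
      exact Ge.const _) x y' hx0 hxG (by rw [← eval_map]; exact hxF a ha)
      (by rw [← eval_map]; omega)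
    rw [← eval_map] at h2
    omega
  have h1 := hdat.ineq (q := q) (w := fun _ => 0) hd hxc0 hrk hxC hxF (by simp) (fun _ => le_rfl)
    (fun P => by
    -- the regularity of the derivations
    rcases hdich P with hP | hP
    · refine ⟨1, zero_le_one, fun f hf a I hI => ?_, fun a ha => ?_⟩
      · have h2 := loss_all P (fun f hf => hdat.loss P f hf a I hI) hf
        rwa [zero_add] at h2
      by_cases hqa : q a = 0
      · -- integrality at the moving places
        have hreg : ∀ w ∈ Subring.closure ((X : Set (Om K)) ∪ cst K '' (E : Set K)),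
            ∃ a : Λ, (a : Om K) = w ∧ Ge P 0 a := by
          intro w hw
          induction hw using Subring.closure_induction with
          | mem w hw =>
            rcases hw with hw | ⟨y, hy, rfl⟩
            · obtain ⟨m, hm, hmw⟩ := hXM w hw
              exact ⟨m, hmw, Or.inr (hP m hm).ge⟩
            · exact ⟨algebraMap κ Λ ⟨cst K y, hEκ y hy⟩, rfl, Ge.const _⟩
          | zero => exact ⟨0, rfl, Ge.zero⟩
          | one => exact ⟨1, rfl, Ge.one⟩
          | add a b _ _ ha hb =>
            obtain ⟨a', rfl, ha⟩ := ha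
            obtain ⟨b', rfl, hb⟩ := hb
            exact ⟨a' + b', rfl, ha.add hb⟩
          | neg a _ ha =>
            obtain ⟨a', rfl, ha⟩ := ha
            exact ⟨-a', rfl, ha.neg⟩
          | mul a b _ _ ha hb =>
            obtain ⟨a', rfl, ha⟩ := ha
            obtain ⟨b', rfl, hb⟩ := hb
            refine ⟨a' * b', rfl, ?_⟩
            have := ha.mul hb
            rwa [add_zero] at this
        have hreg' : ∀ j, Ge P 0 (x j ^ dg a / eval x (map φ (F a))) := by
          intro j
          obtain ⟨b, hb, hbP⟩ := hreg (z j ^ dg a / eval z (map ((cst K).comp E.subtype) (F a))) (by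
            refine Subring.closure_mono (Set.union_subset_union_left _ ?_) (hcz' a j ha hqa)
            intro w hw
            rw [hX, Finset.mem_coe, Finset.mem_biUnion]
            exact ⟨(a, j), Finset.mem_univ _, hw⟩)
          have h2 : x j ^ dg a / eval x (map φ (F a)) = b := by
            apply Subtype.ext
            rw [hb, ← hev a, ← show ((x j : Λ) : Om K) = z j from congrFun hxz j]
            rfl
          rw [h2]
          exact hbP
        have h2 := ord_of_int P (hdat.hom a) (hcf P a) hx0 (hxF a ha) hreg'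
        rw [h2, sub_self]
        simp
      · have h2 := pow_cond' (N := N) hqa (hq a ha hqa) (r := 1) (g := 0)
          (by rw [neg_zero]; exact hv0 P a ha) le_rfl zero_le_one (fun _ => hvq P a ha hqa)
        simpa using h2
    · refine ⟨0, le_rfl, fun f hf a I _ => ?_, fun a ha => ?_⟩
      · rw [sub_zero]
        exact hP a I f hf
      · simp only [ite_self, mul_zero, add_zero]
        exact mul_nonneg (Int.natCast_nonneg _) (hv0 P a ha))
  simp only [mul_zero, add_zero, finsum_zero] at h1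
  obtain ⟨c, hc⟩ := const_of_pht h1 hxl0 j
  apply hzκ
  have h2 := congrArg (fun w : Λ => (w : Om K)) hc
  rw [hx] at h2
  change z j = (c : Om K) at h2
  rw [h2]
  exact c.2

end Pool.Agent.N126.RC
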