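import Pool.Agent.N126.RC.FinalW
import Pool.Agent.Y216.Spec

/-!
Pointed curves in the varieties with a generically finite map to a ramified covering.
-/

set_option autoImplicit false

open MvPolynomial FF Pool.Agent.W603.LV Pool.Agent.W603.PV Pool.Agent.W602.GT
open Pool.Agent.TH145.MG (DimLE)
open Pool.Agent.W602.RG (PseudoGeomHyp)

namespace Pool.Agent.N126.RC

theorem pord_perm {k L : Type} [Field k] [Field L] [Algebra k L] {n : ℕ} (P : Place k L)
    (f : Fin (n + 1) → L) (σ : Equiv.Perm (Fin (n + 1))) : pord P (fun j => f (σ j)) = pord P f := by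
  unfold pord
  exact Equiv.iInf_congr (σ.subtypeEquiv fun _ => Iff.rfl) fun _ => rfl

theorem pht_perm {k L : Type} [Field k] [Field L] [Algebra k L] {n : ℕ}
    (f : Fin (n + 1) → L) (σ : Equiv.Perm (Fin (n + 1))) : pht k (fun j => f (σ j)) = pht k f := by
  unfold pht
  simp only [pord_perm]

variable {k K : Type} [Field k] [Field K] [IsAlgClosed K] [CharZero K] [Algebra k K]
  {n m : ℕ} {A : Type} [Fintype A] [DecidableEq A] {d q : A → ℕ} {W ι : Type}

/-- Varieties with a generically finite map to a ramified covering are of general type and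
pseudo-geometrically hyperbolic. -/
theorem pointed_main (V : Set (MvPolynomial (Fin (n + 1)) (algebraicClosure k K)))
    (hVh : ∀ f ∈ V, ∃ e, f.IsHomogeneous e) (hV : DimLE (algebraicClosure k K) V m)
    (F : A → MvPolynomial (Fin (n + 1)) K) (hF : Generic k d F) (C : Finset A)
    (hq : ∀ a, a ∉ C → q a ≠ 0)
    (hd : (2 * m : ℚ) < ∑ a ∈ C, ((d a : ℚ) + 1) + ∑ a ∈ Cᶜ, (d a : ℚ) * (1 - 1 / q a))
    [Finite W] (e : W → ℕ) (G : ι → MvPolynomial (Fin (n + 1) ⊕ W) K)
    (hGh : ∀ i, ∃ c, (G i).IsWeightedHomogeneous (wts e) c) (hfo : FiniteOver G)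
    (hov : Over V F C G) (hram : ∀ a, a ∉ C → RamifiedOver G (F a) (q a))
    {L : Type} [Field L] [Algebra K L] {N w : ℕ} (y : Fin (N + 1) → L) (hy : y ≠ 0)
    (hgen : coords K y = ⊤) (hw : 0 < w) (htr : Algebra.trdeg K L = w)
    (z : Fin (n + 1) ⊕ W → L) (c : Fin (n + 1)) (hc : z (Sum.inl c) = 1)
    (hz : ∀ i, aeval z (G i) = 0)
    (halg : Algebra.IsAlgebraic (IntermediateField.adjoin K (Set.range z)) L) :
    GeneralType K L w ∧ PseudoGeomHyp K y ∧ Pool.Agent.Y216.CurveBound K y := by
  classical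
  obtain ⟨τ, hτ⟩ : ∃ τ : ℚ, τ = ∑ a ∈ C, ((d a : ℚ) + 1) + ∑ a ∈ Cᶜ, (d a : ℚ) * (1 - 1 / q a) -
    2 * m := ⟨_, rfl⟩
  have hτ0 : 0 < τ := by rw [hτ]; linarith
  have hcurve := curve_proj V hVh hV F hF C hq e G hGh hfo hov hram
  rw [← hτ] at hcurve
  have hgt : GeneralType K L w := by
    have h3 := log_mainW (q := q) V hVh hV F hF C hd e G hGh hfo hov (fun a ha _ => hram a ha) L w z
      c hw htr hc hz (fun b hb => absurd hb.2 (hq b hb.1)) halg
    refine general_of_log ?_
    have h4 : (fun Q : Place K L => ∃ b ∈ {a | a ∉ C ∧ q a = 0},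
        d b * pord Q (fun j => z (Sum.inl j)) < Q.ord (aeval (fun j => z (Sum.inl j)) (F b))) =
        fun _ => False := by
      funext Q
      refine eq_false ?_
      rintro ⟨a, ⟨ha, hqa⟩, -⟩
      exact hq a ha hqa
    rwa [h4] at h3
  have halg1 := alg_coords hfo z c hc hz halg
  have hb : Pool.Agent.Y216.CurveBound K y := by
    obtain ⟨B0, hB0⟩ := exists_nat_ge (1 / τ)
    have hσ : (Equiv.swap 0 c) 0 = c := Equiv.swap_apply_left 0 c
    refine Pool.Agent.Y216.curveBound_of (ι := Fin (n + 1) ⊕ W) (n := n) hy hgen z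
      (fun j => Sum.inl (Equiv.swap 0 c j)) (by rw [hσ, hc]; exact one_ne_zero) ?_ B0 ?_
    · intro η
      have h1 : IsAlgebraic (coords K fun i => z (Sum.inl i)).toSubfield η :=
        halg1.isAlgebraic η
      refine Pool.Agent.TH145.MF.alg_mono (F2 := (IntermediateField.adjoin K
        (Set.range fun j => z (Sum.inl (Equiv.swap 0 c j)) /
          z (Sum.inl (Equiv.swap 0 c 0)))).toSubfield) ?_ h1
      have h2 : coords K (fun i => z (Sum.inl i)) ≤ IntermediateField.adjoin K
          (Set.range fun j => z (Sum.inl (Equiv.swap 0 c j)) /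
            z (Sum.inl (Equiv.swap 0 c 0))) := by
        unfold coords
        rw [IntermediateField.adjoin_le_iff]
        have hx : ∀ i, z (Sum.inl i) ∈ IntermediateField.adjoin K
            (Set.range fun j => z (Sum.inl (Equiv.swap 0 c j)) /
              z (Sum.inl (Equiv.swap 0 c 0))) := by
          intro i
          refine IntermediateField.subset_adjoin _ _ ⟨Equiv.swap 0 c i, ?_⟩
          simp only [hσ, hc, div_one, Equiv.swap_apply_self]
        rintro _ ⟨i, j, -, rfl⟩
        exact div_mem (hx i) (hx j)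
      exact h2
    · intro L' _ _ _ τ' hrel
      have h1 : τ' (Sum.inl c) = 1 := by
        have h2 := hrel (X (Sum.inl c) - 1) (by
          rw [map_sub, aeval_X, map_one, hc, sub_self])
        rw [map_sub, aeval_X, map_one] at h2
        exact sub_eq_zero.1 h2
      have h3 : pht K (fun j => τ' (Sum.inl (Equiv.swap 0 c j))) =
          pht K (fun j => τ' (Sum.inl j)) := pht_perm (fun j => τ' (Sum.inl j)) (Equiv.swap 0 c)
      rw [h3]
      have hmax : (0 : ℤ) ≤ max (canDeg K L') 0 := le_max_right _ _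
      by_cases hnc : ∃ v, τ' v ∉ Set.range (algebraMap K L')
      · have h4 := hcurve L' τ' c h1 (fun i => hrel (G i) (hz i)) hnc
        have h5 : (pht K (fun j => τ' (Sum.inl j)) : ℚ) ≤
            (1 / τ) * (max (canDeg K L') 0 : ℤ) := by
          rw [one_div, ← div_eq_inv_mul, le_div_iff₀ hτ0, mul_comm]
          refine h4.trans ?_
          exact_mod_cast le_max_left _ _
        have h6 : (1 / τ) * ((max (canDeg K L') 0 : ℤ) : ℚ) ≤
            B0 * ((max (canDeg K L') 0 : ℤ) : ℚ) :=
          mul_le_mul_of_nonneg_right hB0 (by exact_mod_cast hmax)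
        exact_mod_cast h5.trans h6
      · push Not at hnc
        have h4 : pht K (fun j => τ' (Sum.inl j)) ≤ 0 := by
          refine (pht_le (k := K) (fun j => τ' (Sum.inl j)) (l := c) (by
            rw [h1]; exact one_ne_zero)).trans ?_
          refine Finset.sum_nonpos fun j _ => ?_
          obtain ⟨r, hr⟩ := hnc (Sum.inl j)
          rw [h1, div_one, ← hr]
          exact (hgt_algebraic (isAlgebraic_algebraMap _)).le
        exact h4.trans (mul_nonneg (Nat.cast_nonneg _) hmax)
  exact ⟨hgt, Pool.Agent.Y216.pointed_of_bound hb, hb⟩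

end Pool.Agent.N126.RC
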