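import Pool.Agent.N126.RC.Setup
import Pool.Agent.TH145.GK.Scale

/-!
Coefficients whose ratios are algebraically independent; projective points.
-/

set_option autoImplicit false

open MvPolynomial Pool.Agent.W602.GT LinearAlgebra.Projectivization Pool.Agent.TH145.GH
open Pool.Agent.TH145.GC (exists_big)
open Pool.Agent.TH145.GD (St)
open Pool.Agent.TH145.MG (DimLE)
open Pool.Agent.TH145.GK (indep_scale)

namespace Pool.Agent.N126.RC

open scoped Classical in
/-- Finiteness of the points, if the ratios of the coefficients are independent. -/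
theorem fin_points' (hMU : S_MULT) (hBN : S_BND) (hMA : S_MAP) {k0 K : Type} [Field k0] [Field K]
    [Algebra k0 K] [IsAlgClosed K]
    [CharZero K] [IsAlgClosed k0] {n m N : ℕ} {A : Type} [Fintype A] {dg q : A → ℕ} (Cs : Finset A)
    (hd : N * (2 * m + 1) + ∑ a ∈ Finset.univ.filter (fun a => a ∉ Cs), N / q a * dg a <
      N * (∑ a, dg a + Cs.card))
    (hq : ∀ a, a ∉ Cs → q a ≠ 0 → q a ∣ N)
    (V : Set (MvPolynomial (Fin (n + 1)) k0)) (hV : DimLE k0 V m)
    {J : A → Type} [∀ a, Fintype (J a)] (P : ∀ a, J a → MvPolynomial (Fin (n + 1)) k0)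
    (hP : ∀ a j, (P a j).IsHomogeneous (dg a))
    (c0 : Fin (n + 1)) (hSt : ∀ a, ∀ I ∈ St c0 (dg a), ∃ j, P a j = monomial I 1)
    (cf : ∀ a, J a → K) (j0 : ∀ a, J a) (h0 : ∀ a, cf a (j0 a) ≠ 0)
    (hind : AlgebraicIndependent k0 fun p : (Σ a, {j : J a // j ≠ j0 a}) =>
      cf p.1 p.2.1 / cf p.1 (j0 p.1))
    {F : A → MvPolynomial (Fin (n + 1)) K}
    (hF : ∀ a, F a = ∑ j, C (cf a j) * map (algebraMap k0 K) (P a j))
    {W ι : Type} [Finite W] [Finite ι] (e : W → ℕ) (G : ι → MvPolynomial (Fin (n + 1) ⊕ W) K)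
    (hGh : ∀ i, ∃ c, (G i).IsWeightedHomogeneous (wts e) c) (hfo : FiniteOver G)
    (hram : ∀ a, a ∉ Cs → q a ≠ 0 → Ram G (F a) (q a)) (T : Finset K) :
    {x : Fin (n + 1) → K | (∀ j, x j ∈ IntermediateField.adjoin k0 (T : Set K)) ∧ x c0 = 1 ∧
      (∀ f ∈ V, aeval x f = 0) ∧ (∀ a ∈ Cs, eval x (F a) = 0) ∧
      (∀ a, a ∉ Cs → eval x (F a) ≠ 0) ∧
      (∀ a, a ∉ Cs → q a = 0 → ∀ j, x j ^ dg a / eval x (F a) ∈
        Subring.closure (Set.range (algebraMap k0 K) ∪ (T : Set K))) ∧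
      ∃ u : W → K, (∀ w, u w ∈ IntermediateField.adjoin k0 (T : Set K)) ∧
        ∀ i, eval (Sum.elim x u) (G i) = 0}.Finite := by
  obtain ⟨K', _, _, hK', hc, t, ht⟩ := exists_big K A
  let _ : Algebra k0 K' := ((algebraMap K K').comp (algebraMap k0 K)).toAlgebra
  have hst : IsScalarTower k0 K K' := IsScalarTower.of_algebraMap_eq fun _ => rfl
  have h1 := indep_scale (k0 := k0) (K' := K') cf j0 h0 hind ht
  obtain ⟨cf', hcf'⟩ : ∃ cf' : ∀ a, J a → K', ∀ a j, cf' a j =
    t a / algebraMap K K' (cf a (j0 a)) * algebraMap K K' (cf a j) := ⟨_, fun _ _ => rfl⟩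
  obtain ⟨H, hH⟩ : ∃ H : A → MvPolynomial (Fin (n + 1)) K', ∀ a, H a =
    ∑ j, MvPolynomial.C (cf' a j) * map (algebraMap k0 K') (P a j) := ⟨_, fun _ => rfl⟩
  have h5 : AlgebraicIndependent k0 (fun p : (Σ a, J a) => cf' p.1 p.2) := by
    simp only [hcf']
    exact h1
  have ha0 : ∀ a, algebraMap K K' (cf a (j0 a)) ≠ 0 := fun a => by
    rw [Ne, map_eq_zero]; exact h0 a
  have ht0 : ∀ a, t a ≠ 0 := fun a => by
    intro h5
    have h6 : Transcendental K (t a) := ht.transcendental a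
    rw [h5] at h6
    exact h6 (by
      have := isAlgebraic_algebraMap (R := K) (A := K') 0
      rwa [map_zero] at this)
  have hHF : ∀ a, H a = C (t a / algebraMap K K' (cf a (j0 a))) *
      map (algebraMap K K') (F a) := by
    intro a
    rw [hH, hF, map_sum, Finset.mul_sum]
    refine Finset.sum_congr rfl fun j _ => ?_
    rw [map_mul, map_C, map_map, ← mul_assoc, ← C_mul, hcf']
    rfl
  obtain ⟨T', hT'⟩ : ∃ T' : Finset K', T' = Finset.univ.image
    (fun a => algebraMap K K' (cf a (j0 a)) / t a) ∪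
      T.image (algebraMap K K') := ⟨_, rfl⟩
  have h3 := fin_points (k0 := k0) hMU hBN Cs hd hq V hV P hP c0 hSt hH h5 e
    (fun i => map (algebraMap K K') (G i)) (fun i => by
      obtain ⟨c, hc⟩ := hGh i
      exact ⟨c, wh_map _ hc⟩) ((hMA K K' (algebraMap K K') n W ι G 0 0 1 one_ne_zero).2 hfo)
    (fun a ha hqa => by
      rw [hHF]
      exact (hMA K K' (algebraMap K K') n W ι G (F a) (q a) _
        (div_ne_zero (ht0 a) (ha0 a))).1 (hram a ha hqa)) T'
  have hev : ∀ (a : A) (x : Fin (n + 1) → K), eval (fun j => algebraMap K K' (x j)) (H a) =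
      t a / algebraMap K K' (cf a (j0 a)) * algebraMap K K' (eval x (F a)) := by
    intro a x
    rw [hHF, map_mul, eval_C, eval_map]
    congr 1
    have h6 := hom_eval₂ (F a) (RingHom.id K) (algebraMap K K') x
    exact h6.symm
  have hmono : IntermediateField.adjoin k0 ((T.image (algebraMap K K') : Finset K') : Set K') ≤
      IntermediateField.adjoin k0 (T' : Set K') := by
    refine IntermediateField.adjoin.mono _ _ _ ?_
    rw [hT', Finset.coe_union]
    exact Set.subset_union_right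
  have hadj : ∀ z ∈ IntermediateField.adjoin k0 (T : Set K),
      algebraMap K K' z ∈ IntermediateField.adjoin k0 (T' : Set K') := by
    intro z hz
    apply hmono
    have h4 : (IntermediateField.adjoin k0 (T : Set K)).map (IsScalarTower.toAlgHom k0 K K') =
        IntermediateField.adjoin k0 ((T.image (algebraMap K K') : Finset K') : Set K') := by
      rw [IntermediateField.adjoin_map, Finset.coe_image]
      rfl
    rw [← h4]
    exact ⟨z, hz, rfl⟩
  refine Set.Finite.of_finite_image (f := fun x j => algebraMap K K' (x j)) (h3.subset ?_) ?_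
  · rintro _ ⟨x, ⟨hx, hxl, hxV, hxC, hxF, hxs, u, hu, huG⟩, rfl⟩
    refine ⟨fun j => hadj _ (hx j), ?_, fun f hf => ?_, fun a ha => ?_, fun a ha => ?_,
      fun a ha hqa j => ?_, fun w => algebraMap K K' (u w), fun w => hadj _ (hu w), fun i => ?_⟩
    · dsimp only
      rw [hxl, map_one]
    · have h6 := congrArg (algebraMap K K') (hxV f hf)
      rw [map_zero] at h6
      rw [← h6]
      exact (hom_eval₂ f (algebraMap k0 K) (algebraMap K K') x).symm
    · rw [hev, hxC a ha, map_zero, mul_zero]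
    · rw [hev]
      exact mul_ne_zero (div_ne_zero (ht0 a) (ha0 a)) (by rw [Ne, map_eq_zero]; exact hxF a ha)
    · rw [hev]
      have h6 : algebraMap K K' (x j) ^ dg a /
          (t a / algebraMap K K' (cf a (j0 a)) * algebraMap K K' (eval x (F a))) =
          algebraMap K K' (cf a (j0 a)) / t a *
            algebraMap K K' (x j ^ dg a / eval x (F a)) := by
        rw [map_div₀, map_pow]
        have h7 : algebraMap K K' (eval x (F a)) ≠ 0 := by rw [Ne, map_eq_zero]; exact hxF a ha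
        have h8 := ht0 a
        have h9 := ha0 a
        field_simp
      rw [h6]
      refine mul_mem (Subring.subset_closure (Or.inr ?_)) ?_
      · rw [hT', Finset.mem_coe]
        exact Finset.mem_union_left _ (Finset.mem_image_of_mem _ (Finset.mem_univ _))
      · have h7 : Subring.closure (Set.range (algebraMap k0 K) ∪ (T : Set K)) ≤
            (Subring.closure (Set.range (algebraMap k0 K') ∪
              (T' : Set K'))).comap (algebraMap K K') := by
          rw [Subring.closure_le]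
          rintro z (⟨r, rfl⟩ | hz)
          · exact Subring.subset_closure (Or.inl ⟨r, rfl⟩)
          · refine Subring.subset_closure (Or.inr ?_)
            rw [hT', Finset.mem_coe]
            exact Finset.mem_union_right _ (Finset.mem_image_of_mem _ hz)
        exact h7 (hxs a ha hqa j)
    · have h6 := hom_eval₂ (G i) (RingHom.id K) (algebraMap K K') (Sum.elim x u)
      have h7 : (fun j => algebraMap K K' (Sum.elim x u j)) =
          Sum.elim (fun j => algebraMap K K' (x j)) fun w => algebraMap K K' (u w) := by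
        funext j
        rcases j with j | w <;> rfl
      have h8 : eval₂ (RingHom.id K) (Sum.elim x u) (G i) = 0 := huG i
      rw [h8, map_zero, RingHomCompTriple.comp_eq, h7] at h6
      rw [eval_map]
      exact h6.symm
  · intro x _ x' _ hxx
    funext j
    exact (algebraMap K K').injective (congrFun hxx j)

variable {k0 K : Type} [Field k0] [Field K] [Algebra k0 K] [IsAlgClosed K]
    [CharZero K] [IsAlgClosed k0] {n m N : ℕ} {A : Type} [Fintype A] {dg q : A → ℕ}
    {J : A → Type} [∀ a, Fintype (J a)]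

open scoped Classical in
/-- Finiteness of the points outside of a linear subspace. -/
theorem fin_proj (hMU : S_MULT) (hBN : S_BND) (hMA : S_MAP) (Cs : Finset A)
    (hd : N * (2 * m + 1) + ∑ a ∈ Finset.univ.filter (fun a => a ∉ Cs), N / q a * dg a <
      N * (∑ a, dg a + Cs.card))
    (hq : ∀ a, a ∉ Cs → q a ≠ 0 → q a ∣ N)
    (V : Set (MvPolynomial (Fin (n + 1)) k0)) (hVh : ∀ f ∈ V, ∃ e, f.IsHomogeneous e)
    (hV : DimLE k0 V m) (P : ∀ a, J a → MvPolynomial (Fin (n + 1)) k0)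
    (hP : ∀ a j, (P a j).IsHomogeneous (dg a))
    (Z : Set (Fin (n + 1))) (hSt : ∀ c ∈ Z, ∀ a, ∀ I ∈ St c (dg a), ∃ j, P a j = monomial I 1)
    (cf : ∀ a, J a → K) (j0 : ∀ a, J a) (h0 : ∀ a, cf a (j0 a) ≠ 0)
    (hind : AlgebraicIndependent k0 fun p : (Σ a, {j : J a // j ≠ j0 a}) =>
      cf p.1 p.2.1 / cf p.1 (j0 p.1))
    {F : A → MvPolynomial (Fin (n + 1)) K}
    (hF : ∀ a, F a = ∑ j, C (cf a j) * map (algebraMap k0 K) (P a j))
    {W ι : Type} [Finite W] [Finite ι] (e : W → ℕ) (G : ι → MvPolynomial (Fin (n + 1) ⊕ W) K)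
    (hGh : ∀ i, ∃ c, (G i).IsWeightedHomogeneous (wts e) c) (hfo : FiniteOver G)
    (hram : ∀ a, a ∉ Cs → q a ≠ 0 → Ram G (F a) (q a)) (T : Finset K) :
    {p : ℙ K (Fin (n + 1) → K) | ∃ x : Fin (n + 1) → K, (∃ c ∈ Z, x c ≠ 0) ∧
      (∀ f ∈ V, aeval x f = 0) ∧ (∀ a ∈ Cs, eval x (F a) = 0) ∧
      (∀ a, a ∉ Cs → eval x (F a) ≠ 0) ∧
      (∀ a, a ∉ Cs → q a = 0 → ∀ j, x j ^ dg a / eval x (F a) ∈
        Subring.closure (Set.range (algebraMap k0 K) ∪ (T : Set K))) ∧
      (∃ u : W → K, (∀ w, u w ∈ IntermediateField.adjoin k0 (T : Set K)) ∧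
        ∀ i, eval (Sum.elim x u) (G i) = 0) ∧
      (∀ i, x i ∈ IntermediateField.adjoin k0 (T : Set K)) ∧
      ∃ hx : x ≠ 0, p = Projectivization.mk K x hx}.Finite := by
  have hFh : ∀ a, (F a).IsHomogeneous (dg a) := by
    intro a
    rw [hF]
    refine IsHomogeneous.sum _ _ _ fun j _ => ?_
    have := (isHomogeneous_C (Fin (n + 1)) (cf a j)).mul ((hP a j).map (algebraMap k0 K))
    rwa [zero_add] at this
  have h1 : (fun _ : Fin (n + 1) => (1 : K)) ≠ 0 := fun h => one_ne_zero (congrFun h 0)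
  obtain ⟨g, hg⟩ : ∃ g : (Fin (n + 1) → K) → ℙ K (Fin (n + 1) → K), ∀ x (hx : x ≠ 0),
      g x = Projectivization.mk K x hx := by
    refine ⟨fun x => if hx : x ≠ 0 then Projectivization.mk K x hx else
      Projectivization.mk K _ h1, fun x hx => ?_⟩
    simp only [dif_pos hx]
  refine (Set.Finite.biUnion (Set.toFinite Z) fun c hc =>
    ((fin_points' hMU hBN hMA Cs hd hq V hV P hP c (hSt c hc) cf j0 h0 hind hF e G hGh hfo
      hram T).image g)).subset ?_
  rintro p ⟨x, ⟨c, hc, hxc⟩, hxV, hxC, hxn, hxs, ⟨u, huT, huG⟩, hxT, hx, rfl⟩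
  rw [Set.mem_iUnion₂]
  refine ⟨c, hc, (x c)⁻¹ • x, ⟨fun j => ?_, ?_, fun f hf => ?_, fun a ha => ?_, fun a ha => ?_,
    fun a ha hqa j => ?_, fun w => (x c)⁻¹ ^ e w * u w, fun w => ?_, fun i => ?_⟩, ?_⟩
  · rw [Pi.smul_apply, smul_eq_mul]
    exact mul_mem (inv_mem (hxT c)) (hxT j)
  · rw [Pi.smul_apply, smul_eq_mul, inv_mul_cancel₀ hxc]
  · obtain ⟨e, he⟩ := hVh f hf
    rw [Pool.Agent.TH145.MG.aeval_smul he, hxV f hf, mul_zero]
  · rw [eval_smul_hom (hFh a), hxC a ha, mul_zero]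
  · rw [eval_smul_hom (hFh a)]
    exact mul_ne_zero (pow_ne_zero _ (inv_ne_zero hxc)) (hxn a ha)
  · have h3 : ((x c)⁻¹ • x) j ^ dg a / eval ((x c)⁻¹ • x) (F a) = x j ^ dg a / eval x (F a) := by
      rw [eval_smul_hom (hFh a), Pi.smul_apply, smul_eq_mul, mul_pow,
        mul_div_mul_left _ _ (pow_ne_zero _ (inv_ne_zero hxc))]
    rw [h3]
    exact hxs a ha hqa j
  · exact mul_mem (pow_mem (inv_mem (hxT c)) _) (huT w)
  · obtain ⟨c', hc'⟩ := hGh i
    have h4 := eval_scale hc' (x c)⁻¹ (Sum.elim x u)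
    rw [huG i, mul_zero] at h4
    rw [← h4]
    congr 2
    funext j
    rcases j with j | w
    · change (x c)⁻¹ * x j = (x c)⁻¹ ^ 1 * x j
      rw [pow_one]
    · rfl
  · have hx' : (x c)⁻¹ • x ≠ 0 := smul_ne_zero (inv_ne_zero hxc) hx
    rw [hg _ hx', Projectivization.mk_eq_mk_iff']
    exact ⟨(x c)⁻¹, rfl⟩

end Pool.Agent.N126.RC
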