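import Pool.Agent.N126.RC.Fin
import Pool.Agent.TH145.GK.Setup

/-!
Finiteness over finitely generated rings and fields, algebraically independent coefficients.
-/

set_option autoImplicit false

open MvPolynomial Pool.Agent.TH145.GH
open Pool.Agent.TH145.GD (St deg_St)
open Pool.Agent.TH145.GK (Gen exists_all)

namespace Pool.Agent.N126.RC

open scoped Classical in
/-- Finiteness of the points over a ring and a field generated by a finite set over `k0`. -/
theorem fin_points (hMU : S_MULT) (hBN : S_BND) {k0 K : Type} [Field k0] [Field K] [Algebra k0 K]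
    [IsAlgClosed K] [CharZero K] [IsAlgClosed k0] {n m N : ℕ} {A : Type} [Fintype A]
    {dg q : A → ℕ} (Cs : Finset A)
    (hd : N * (2 * m + 1) + ∑ a ∈ Finset.univ.filter (fun a => a ∉ Cs), N / q a * dg a <
      N * (∑ a, dg a + Cs.card))
    (hq : ∀ a, a ∉ Cs → q a ≠ 0 → q a ∣ N)
    (V : Set (MvPolynomial (Fin (n + 1)) k0))
    (hV : Pool.Agent.TH145.MG.DimLE k0 V m)
    {J : A → Type} [∀ a, Fintype (J a)] (P : ∀ a, J a → MvPolynomial (Fin (n + 1)) k0)
    (hP : ∀ a j, (P a j).IsHomogeneous (dg a))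
    (c0 : Fin (n + 1)) (hSt : ∀ a, ∀ I ∈ St c0 (dg a), ∃ j, P a j = monomial I 1)
    {cf : ∀ a, J a → K} {F : A → MvPolynomial (Fin (n + 1)) K}
    (hF : ∀ a, F a = ∑ j, C (cf a j) * map (algebraMap k0 K) (P a j))
    (hind : AlgebraicIndependent k0 fun p : (Σ a, J a) => cf p.1 p.2)
    {W ι : Type} [Finite W] [Finite ι] (e : W → ℕ) (G : ι → MvPolynomial (Fin (n + 1) ⊕ W) K)
    (hGh : ∀ i, ∃ c, (G i).IsWeightedHomogeneous (wts e) c) (hfo : FiniteOver G)
    (hram : ∀ a, a ∉ Cs → q a ≠ 0 → Ram G (F a) (q a))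
    (T : Finset K) :
    {x : Fin (n + 1) → K | (∀ j, x j ∈ IntermediateField.adjoin k0 (T : Set K)) ∧ x c0 = 1 ∧
      (∀ f ∈ V, aeval x f = 0) ∧ (∀ a ∈ Cs, eval x (F a) = 0) ∧
      (∀ a, a ∉ Cs → eval x (F a) ≠ 0) ∧
      (∀ a, a ∉ Cs → q a = 0 → ∀ j, x j ^ dg a / eval x (F a) ∈
        Subring.closure (Set.range (algebraMap k0 K) ∪ (T : Set K))) ∧
      ∃ u : W → K, (∀ w, u w ∈ IntermediateField.adjoin k0 (T : Set K)) ∧
        ∀ i, eval (Sum.elim x u) (G i) = 0}.Finite := by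
  classical
  have hι : Fintype ι := Fintype.ofFinite ι
  have hFh : ∀ a, (F a).IsHomogeneous (dg a) := by
    intro a
    rw [hF]
    refine IsHomogeneous.sum _ _ _ fun j _ => ?_
    have := (isHomogeneous_C (Fin (n + 1)) (cf a j)).mul ((hP a j).map (algebraMap k0 K))
    rwa [zero_add] at this
  obtain ⟨TB, hTB⟩ := hBN K n W ι G hfo
  have hM0 : ∀ a, ∃ Ta : Finset K, a ∉ Cs → q a ≠ 0 → ∀ (E : Type) [Field E] (ψ : E →+* K),
      (∀ t ∈ Ta, t ∈ ψ.range) →
      ∀ (G' : ι → MvPolynomial (Fin (n + 1) ⊕ W) E) (F' : MvPolynomial (Fin (n + 1)) E),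
        (∀ i, map ψ (G' i) = G i) → map ψ F' = F a →
          ∃ S0 : Finset E, Mult S0 G' F' (dg a) (q a) := by
    intro a
    by_cases h : a ∉ Cs ∧ q a ≠ 0
    · obtain ⟨Ta, hTa⟩ := hMU K n W ι e G (F a) (dg a) (q a) hGh (hFh a) hfo (hram a h.1 h.2)
      exact ⟨Ta, fun _ _ => hTa⟩
    · exact ⟨∅, fun h1 h2 => absurd ⟨h1, h2⟩ h⟩
  choose TM hTM using hM0
  obtain ⟨T', hT'⟩ : ∃ T' : Finset K, T' = T ∪ (TB ∪ (Finset.univ.biUnion TM ∪
    Finset.univ.biUnion fun i => (G i).support.image fun u => (G i).coeff u)) := ⟨_, rfl⟩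
  have hT1' : ∀ t ∈ T, t ∈ T' := fun t ht => by
    rw [hT']; exact Finset.mem_union_left _ ht
  have hT2' : ∀ t ∈ TB, t ∈ T' := fun t ht => by
    rw [hT']; exact Finset.mem_union_right _ (Finset.mem_union_left _ ht)
  have hT3' : ∀ a, ∀ t ∈ TM a, t ∈ T' := fun a t ht => by
    rw [hT']
    exact Finset.mem_union_right _ (Finset.mem_union_right _ (Finset.mem_union_left _
      (Finset.mem_biUnion.2 ⟨a, Finset.mem_univ _, ht⟩)))
  have hT4' : ∀ i, ∀ u ∈ (G i).support, (G i).coeff u ∈ T' := fun i u hu => by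
    rw [hT']
    exact Finset.mem_union_right _ (Finset.mem_union_right _ (Finset.mem_union_right _
      (Finset.mem_biUnion.2 ⟨i, Finset.mem_univ _, Finset.mem_image_of_mem _ hu⟩)))
  obtain ⟨B, hB, K1, y, E, F1, DE, D, hK1, hc, hy, h1, h2, h3, h4, h5, h6, h7, h8⟩ :=
    exists_all P hP c0 hSt hF hind T'
  have : Finite B := hB
  obtain ⟨T1, hT1, hT1T⟩ : ∃ T1 : Finset K1, (∀ t ∈ T1, t ∈ E) ∧
      ∀ t ∈ T, ∃ t1 ∈ T1, (t1 : K) = t := by
    have h9 : ∀ t : {t // t ∈ T}, ∃ e : K1, e ∈ E ∧ (e : K) = t := fun t =>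
      h8 t (IntermediateField.subset_adjoin _ _ (hT1' t t.2))
    choose e he het using h9
    refine ⟨T.attach.image e, ?_, fun t ht => ?_⟩
    · intro t ht
      obtain ⟨s, -, rfl⟩ := Finset.mem_image.1 ht
      exact he s
    · exact ⟨_, Finset.mem_image_of_mem _ (Finset.mem_attach _ ⟨t, ht⟩), het _⟩
  -- the coefficients
  obtain ⟨ψ, hψ⟩ : ∃ ψ : E.toSubfield →+* K, ψ = (algebraMap K1 K).comp E.toSubfield.subtype :=
    ⟨_, rfl⟩
  have hψT : ∀ t ∈ T', t ∈ ψ.range := by
    intro t ht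
    obtain ⟨e', he', het⟩ := h8 t (IntermediateField.subset_adjoin _ _ ht)
    refine ⟨⟨e', he'⟩, ?_⟩
    rw [hψ]
    exact het
  have hG1 : ∀ i, ∃ g : MvPolynomial (Fin (n + 1) ⊕ W) E.toSubfield, map ψ g = G i := by
    intro i
    refine lift_poly' ψ (G i) fun u => ?_
    by_cases hu : u ∈ (G i).support
    · exact hψT _ (hT4' i u hu)
    · rw [notMem_support_iff.1 hu]
      exact ⟨0, map_zero _⟩
  choose G1 hG1 using hG1
  have hF1 : ∀ a, map ψ (F1 a) = F a := fun a => by rw [hψ]; exact h7 a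
  have hM1 : ∀ a, a ∉ Cs → q a ≠ 0 → ∃ S0 : Finset E.toSubfield,
      Mult S0 G1 (F1 a) (dg a) (q a) := fun a ha hqa =>
    hTM a ha hqa E.toSubfield ψ (fun t ht => hψT t (hT3' a t ht)) G1 (F1 a) hG1 (hF1 a)
  have hB1 : Bnd G1 := hTB E.toSubfield ψ (fun t ht => hψT t (hT2' t ht)) G1 hG1
  have h9 := fin_all E hy h3 D h4 h5 h6 Cs hd hq G1 hM1 hB1 V hV T1 hT1
  refine (h9.image fun x j => (x j : K)).subset ?_
  rintro x ⟨hx, hxl, hxV, hxC, hxF, hxs, u, hu, huG⟩
  have hmono : IntermediateField.adjoin k0 (T : Set K) ≤ IntermediateField.adjoin k0 (T' : Set K) :=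
    IntermediateField.adjoin.mono _ _ _ fun t ht => hT1' t ht
  choose e' he' hex using fun j => h8 (x j) (hmono (hx j))
  choose v hv hvu using fun w => h8 (u w) (hmono (hu w))
  have hex' : (fun j => algebraMap K1 K (e' j)) = x := funext hex
  have hev : ∀ a, algebraMap K1 K (eval e' (map E.toSubfield.subtype (F1 a))) =
      eval x (F a) := by
    intro a
    rw [← h7, eval_map, eval_map]
    have h10 := hom_eval₂ (F1 a) E.toSubfield.subtype (algebraMap K1 K) e'
    rw [h10, hex']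
  refine ⟨e', ⟨he', ?_, fun f hf => ?_, fun a ha => ?_, fun a ha => ?_, fun a ha hqa j => ?_,
    v, hv, fun i => ?_⟩, funext hex⟩
  · apply Subtype.ext
    rw [hex, hxl]
    rfl
  · apply (algebraMap K1 K).injective
    have h10 := hom_eval₂ f (algebraMap k0 K1) (algebraMap K1 K) e'
    rw [h10, map_zero, hex']
    exact hxV f hf
  · apply (algebraMap K1 K).injective
    rw [hev, hxC a ha, map_zero]
  · intro h0
    have h10 := hev a
    rw [h0, map_zero] at h10
    exact hxF a ha h10.symm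
  · have h10 : Subring.closure (Set.range (algebraMap k0 K) ∪ (T : Set K)) ≤
        (Subring.closure (Set.range (algebraMap k0 K1) ∪ (T1 : Set K1))).map (algebraMap K1 K) := by
      rw [Subring.closure_le]
      rintro z (⟨r, rfl⟩ | hz)
      · exact ⟨algebraMap k0 K1 r, Subring.subset_closure (Or.inl ⟨r, rfl⟩), rfl⟩
      · obtain ⟨t1, ht1, htz⟩ := hT1T z hz
        exact ⟨t1, Subring.subset_closure (Or.inr ht1), htz⟩
    obtain ⟨w, hw, hwx⟩ := h10 (hxs a ha hqa j)
    have h11 : w = e' j ^ dg a / eval e' (map E.toSubfield.subtype (F1 a)) := by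
      apply (algebraMap K1 K).injective
      rw [hwx, map_div₀, hev, map_pow]
      congr 2
      exact (hex j).symm
    rw [← h11]
    exact hw
  · apply (algebraMap K1 K).injective
    have h10 := hom_eval₂ (G1 i) E.toSubfield.subtype (algebraMap K1 K) (Sum.elim e' v)
    have h11 : (fun j => algebraMap K1 K (Sum.elim e' v j)) = Sum.elim x u := by
      funext j
      rcases j with j | w
      · exact hex j
      · exact hvu w
    rw [eval_map, h10, map_zero, h11, ← hψ, ← eval_map, hG1]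
    exact huG i

end Pool.Agent.N126.RC
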